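import Pool.Agent.N373.P24x.Sel
import Pool.Agent.N373.P24.Main

/-!
# The algebraic side for the other classes

`E_m : y² = x (x - m) (x + 3 m)`, `m = -n`.
-/

set_option autoImplicit false

namespace Pool.Agent.N373.P24x

open Pool.Agent.N373.P24 hiding sel_sub sel_finite
open WeierstrassCurve
open Pool.Agent.Z702 (LocI WZ)
open Pool.Agent.TH841.SH (LocC SelG IsR)
open Pool.Agent.TH841.SH.D (Sha)
open Pool.Agent.N875.X15 (RC NC Ram sq_of_zmod sq_of_mod8 sq_cancel not_dvd_of_prime
  dvd_of_primes fin_of_rank nc_of rc_of)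

open scoped Classical in
/-- **Rank zero and `Ш[2^∞] = 0`.** -/
theorem rank_sha {m : ℤ} (hm : ClsX m) (hR : RC m) (hN : NC m) :
    Module.finrank ℤ (EQm m).toAffine.Point = 0 ∧
    ∀ (k : ℕ) (x : Sha (EQm m)), (2 ^ k : ℕ) • x = 0 → x = 0 := by
  have hm0 : m ≠ 0 := hm.neg.ne
  obtain ⟨hfin, hcard⟩ := sel_finite hm hR hN
  obtain ⟨h1, h2⟩ := Pool.Agent.Y667.SHA.main4 (EQm m) 0 m (-3 * m) (isR m)
    (by omega) (by omega) (by omega) hfin (T4 hm0) (T4_card hm0).ge (T4_two hm0)
  have h3 := h2.trans hcard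
  have hpos : 0 < Nat.card {x : Pool.Agent.W262.SH.Sha (EQm m) // x + x = 0} := by
    have : Nonempty {x : Pool.Agent.W262.SH.Sha (EQm m) // x + x = 0} := ⟨⟨0, add_zero 0⟩⟩
    exact Nat.card_pos
  have h5 : 2 ^ (Module.finrank ℤ (EQm m).toAffine.Point + 2) ≤ 2 ^ 2 :=
    (Nat.le_mul_of_pos_right _ hpos).trans h3
  have h6 := (Nat.pow_le_pow_iff_right (by norm_num : 1 < 2)).1 h5
  have h7 : Module.finrank ℤ (EQm m).toAffine.Point = 0 := by omega
  refine ⟨h7, ?_⟩
  rw [h7] at h3
  have h8 : Nat.card {x : Pool.Agent.W262.SH.Sha (EQm m) // x + x = 0} ≤ 1 := by omega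
  have h9 : ∀ x : Pool.Agent.W262.SH.Sha (EQm m), x + x = 0 → x = 0 := by
    intro x hx
    have h10 : Subsingleton {x : Pool.Agent.W262.SH.Sha (EQm m) // x + x = 0} := by
      rw [← Finite.card_le_one_iff_subsingleton]
      exact h8
    have := h10.elim ⟨x, hx⟩ ⟨0, add_zero 0⟩
    exact congrArg Subtype.val this
  refine fun k => Pool.Agent.Y667.SHA.no_tor (fun x hx => ?_) k
  have h11 := h9 (Pool.Agent.TH841.SH.D.eSha (EQm m) x) (by rw [← map_add, hx, map_zero])
  rwa [EmbeddingLike.map_eq_zero_iff] at h11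

theorem finite_of_crit {m : ℤ} (hm : ClsX m) (hR : RC m) (hN : NC m) :
    Finite (EQm m).toAffine.Point ∧
    ∀ (k : ℕ) (x : Sha (EQm m)), (2 ^ k : ℕ) • x = 0 → x = 0 := by
  obtain ⟨h1, h2⟩ := rank_sha hm hR hN
  exact ⟨fin_of_rank (fg_E hm.neg.ne) h1, h2⟩

/-- integers `1 mod 8` are squares -/
lemma sq8 (n : ℤ) (hn : n % 8 = 1) : IsSquare (n : ℚ_[2]) := by
  have h1 : PadicInt.toZModPow (p := 2) 3 (n : ℤ_[2]) = 1 := by
    rw [map_intCast]
    have h2 : ((8 : ℕ) : ℤ) ∣ n - 1 := by push_cast; omega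
    have h3 := (ZMod.intCast_zmod_eq_zero_iff_dvd (n - 1) 8).2 h2
    push_cast at h3
    exact sub_eq_zero.1 h3
  have h2 := sq_of_mod8 _ h1
  simpa using h2

/-- **All the local conditions**. -/
theorem loc_all {m d : ℤ} (hm : ClsX m) (hd0 : d ≠ 0) (hd4 : m % 8 = 5 → d % 4 = 1)
    (hsup : ∀ p : ℕ, p.Prime → (p : ℤ) ∣ d → (p : ℤ) ∣ m)
    (hloc : ∀ (p : ℕ) [Fact p.Prime], (p : ℤ) ∣ m →
      IsSquare (d : ℚ_[p]) ∨ IsSquare ((d : ℚ_[p]) * m)) :
    (∀ (p : ℕ) [Fact p.Prime], LocI ℚ_[p] (5 * m) (4 * m ^ 2) d) ∧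
      LocI ℝ (5 * m) (4 * m ^ 2) d := by
  have hm0 : m ≠ 0 := hm.neg.ne
  refine ⟨fun p hp => ?_, ?_⟩
  · by_cases hpm : (p : ℤ) ∣ m
    · rcases hloc p hpm with h | h
      · exact locI_sq (pt_all p m) hd0 h
      · exact locI_m (pt_all p m) hm0 hd0 h
    by_cases hp2 : p = 2
    · subst hp2
      have hm8 : m % 8 = 5 := by
        rcases hm.m2 with h | h
        · exact h
        · exfalso
          apply hpm
          push_cast
          omega
      have hd4' := hd4 hm8
      have h6 : d % 8 = 1 ∨ d % 8 = 5 := by omega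
      rcases h6 with h6 | h6
      · exact locI_sq (pt_all 2 m) hd0 (sq8 _ h6)
      · refine locI_m (pt_all 2 m) hm0 hd0 ?_
        have := sq8 (d * m) (by rw [Int.mul_emod, h6, hm8]; norm_num)
        push_cast at this
        exact this
    · have hpd : ¬ (p : ℤ) ∣ d := fun h => hpm (hsup p hp.out h)
      by_cases hsq : IsSquare ((d : ℤ) : ZMod p)
      · exact locI_sq (pt_all p m) hd0 (sq_of_zmod hp2 hpd hsq)
      · have hpr : Prime (p : ℤ) := Nat.prime_iff_prime_int.1 hp.out
        by_cases hp3 : p = 3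
        · -- the special point `X = d`
          subst hp3
          have hm3 : m % 3 = 1 := by
            rcases hm.m3 with h | h
            · exfalso
              apply hpm
              push_cast
              omega
            · exact h
          have hpd' : ¬ (3 : ℤ) ∣ d := by exact_mod_cast hpd
          have h1 : d % 3 = 2 := by
            have h2 : d % 3 = 1 ∨ d % 3 = 2 := by omega
            rcases h2 with h2 | h2
            · exfalso
              apply hsq
              refine ⟨1, ?_⟩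
              have h3 : ((3 : ℕ) : ℤ) ∣ d - 1 := by push_cast; omega
              have h4 := (ZMod.intCast_zmod_eq_zero_iff_dvd (d - 1) 3).2 h3
              push_cast at h4
              rw [mul_one]
              exact sub_eq_zero.1 h4
            · exact h2
          have h2 : (d * (d - m) * (d - 9 * m)) % 3 = 1 := by
            have e1 : d % 3 = 2 % 3 := by omega
            have e2 : (d - m) % 3 = 1 % 3 := by omega
            have e3 : (d - 9 * m) % 3 = 2 % 3 := by omega
            have h5 : d * (d - m) * (d - 9 * m) % 3 = 2 * 1 * 2 % 3 :=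
              (Int.ModEq.mul (Int.ModEq.mul (show d ≡ 2 [ZMOD 3] from e1)
                (show d - m ≡ 1 [ZMOD 3] from e2)) (show d - 9 * m ≡ 2 [ZMOD 3] from e3))
            rw [h5]
            norm_num
          have h3 : ¬ ((3 : ℕ) : ℤ) ∣ d * (d - m) * (d - 9 * m) := by push_cast; omega
          obtain ⟨Y, hY⟩ := sq_of_zmod (p := 3) (by norm_num) h3 (by
            refine ⟨1, ?_⟩
            have h5 : ((3 : ℕ) : ℤ) ∣ d * (d - m) * (d - 9 * m) - 1 := by push_cast; omega
            have h4 := (ZMod.intCast_zmod_eq_zero_iff_dvd (d * (d - m) * (d - 9 * m) - 1) 3).2 h5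
            rw [Int.cast_sub, Int.cast_one] at h4
            rw [mul_one]
            exact sub_eq_zero.1 h4)
          push_cast at hY
          refine ⟨(d : ℚ_[3]), Y, 1, by exact_mod_cast hd0, ?_, by ring⟩
          push_cast
          rw [pow_two, ← hY]
          ring
        · -- the primes of good reduction
          have hz : ∀ n : ℤ, ¬ (p : ℤ) ∣ n → ((n : ℤ) : ZMod p) ≠ 0 := fun n hn h =>
            hn ((ZMod.intCast_zmod_eq_zero_iff_dvd n p).1 h)
          have hb : ((4 * m ^ 2 : ℤ) : ZMod p) ≠ 0 := by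
            apply hz
            intro h
            rcases hpr.dvd_or_dvd h with h3 | h3
            · have e : (4 : ℤ) = 2 ^ 2 := by norm_num
              rw [e] at h3
              exact not_dvd_of_prime Nat.prime_two hp2 (hpr.dvd_of_dvd_pow h3)
            · exact hpm (hpr.dvd_of_dvd_pow h3)
          refine Pool.Agent.Z894.LG.aux p (5 * m) (4 * m ^ 2) d hp2 hb ?_ hd0 ?_
          · have e : (((5 * m : ℤ) : ZMod p)) ^ 2 - 4 * ((4 * m ^ 2 : ℤ) : ZMod p) =
                (3 * (m : ZMod p)) ^ 2 := by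
              push_cast; ring
            rw [e]
            apply quadraticChar_sq_one'
            have h16 : ¬ (p : ℤ) ∣ 3 * m := by
              intro h
              rcases hpr.dvd_or_dvd h with h3 | h3
              · exact not_dvd_of_prime Nat.prime_three hp3 h3
              · exact hpm h3
            have := hz _ h16
            push_cast at this
            exact this
          · rcases quadraticChar_dichotomy (hz d hpd) with h | h
            · exfalso
              exact hsq ((quadraticChar_one_iff_isSquare (hz d hpd)).1 h)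
            · exact h
  · -- the real place
    rcases lt_or_gt_of_ne hd0 with h | h
    · refine locI_m (pt_allR m) hm0 hd0 ?_
      have h1 : (0 : ℝ) ≤ (d : ℝ) * m := by
        have h2 : (0 : ℤ) ≤ d * m := (mul_pos_of_neg_of_neg h hm.neg).le
        exact_mod_cast h2
      exact ⟨Real.sqrt ((d : ℝ) * m), (Real.mul_self_sqrt h1).symm⟩
    · refine locI_sq (pt_allR m) hd0 ?_
      have h1 : (0 : ℝ) ≤ (d : ℝ) := by exact_mod_cast h.le
      exact ⟨Real.sqrt (d : ℝ), (Real.mul_self_sqrt h1).symm⟩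

lemma ram_dvd {m : ℤ} (hm : m % 8 = 5 ∨ m % 4 = 2) {p : ℕ} : Ram m p ↔ (p : ℤ) ∣ m := by
  unfold Ram
  constructor
  · rintro (h | ⟨rfl, h⟩)
    · exact h
    · push_cast
      omega
  · exact Or.inl

/-- **The converse**. -/
theorem rc_of_fin {m : ℤ} (hm : ClsX m) (hf : Finite (EQm m).toAffine.Point)
    (hs : ∀ x : Sha (EQm m), x + x = 0 → x = 0) : RC m := by
  intro d hds hsup hd4 hloc
  by_contra hcon
  push Not at hcon
  have hm0 : m ≠ 0 := hm.neg.ne
  have hd0 : d ≠ 0 := hds.ne_zero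
  have hsup' : ∀ p : ℕ, p.Prime → (p : ℤ) ∣ d → (p : ℤ) ∣ m := by
    intro p hp hpd
    exact (ram_dvd hm.m2).1 (hsup p hp hpd)
  obtain ⟨l1, l2⟩ := loc_all hm hd0 (fun h8 => hd4 (by omega)) hsup'
    (fun p _ hpm => hloc p ((ram_dvd hm.m2).2 hpm))
  -- squares of rational numbers
  have sqz : ∀ n : ℤ, Squarefree n → IsSquare (n : ℚ) → n = 1 := by
    intro n hn hsq
    rw [Rat.isSquare_intCast_iff] at hsq
    obtain ⟨r, hr⟩ := hsq
    have h1 : IsUnit r := hn r ⟨1, by rw [hr]; ring⟩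
    rcases Int.isUnit_iff.1 h1 with h | h <;> rw [hr, h] <;> norm_num
  have hsn : Squarefree (-m) := fun x hx => hm.sqf x (by rwa [dvd_neg] at hx)
  have hns : ¬ IsSquare (-(m : ℚ)) := by
    intro h
    have h1 := sqz (-m) hsn (by push_cast; exact h)
    have := hm.m3
    omega
  have n1 : ¬ IsSquare (d : ℚ) := fun h => hcon.1 (sqz d hds h)
  have hdm : d ∣ m := by
    have h1 : d.natAbs ∣ m.natAbs := dvd_of_primes (Int.squarefree_natAbs.2 hds) (fun p hp hpd =>
      Int.natCast_dvd.1 (hsup' p hp (Int.natCast_dvd.2 hpd)))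
    exact Int.natAbs_dvd_natAbs.1 h1
  have n2 : ¬ IsSquare ((d : ℚ) * m) := by
    intro h
    obtain ⟨c, hc⟩ := hdm
    have hd' : (d : ℚ) ≠ 0 := by exact_mod_cast hd0
    have h1 : IsSquare (c : ℚ) := by
      have e : (d : ℚ) * m = (d * d) * (c : ℚ) := by
        rw [hc]; push_cast; ring
      rw [e] at h
      exact sq_cancel (mul_ne_zero hd' hd') (IsSquare.mul_self _) h
    have hcs : Squarefree c := hm.sqf.squarefree_of_dvd ⟨d, by rw [hc, mul_comm]⟩
    have h2 := sqz _ hcs h1
    apply hcon.2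
    rw [hc, h2, mul_one]
  obtain ⟨t1, t2⟩ := trnE hm0
  obtain ⟨x, hx, hxx⟩ := sha_ex24 hm.neg hns hd0 n1 n2 (fun p _ => l1 p) l2 (t1.2 hf)
  exact hx (t2.2 hs x hxx)

/-! ### The class `n ≡ 3 mod 24` -/

section

variable {n : ℕ}

lemma cls_A3 (hn : Squarefree n) (h24 : n % 24 = 3) : ClsX (-(n : ℤ)) := by
  refine ⟨?_, ?_, by omega, by omega⟩
  · have := hn.ne_zero
    omega
  · intro x hx
    rw [dvd_neg] at hx
    exact Int.squarefree_natCast.2 hn x hx

/-- **The algebraic criterion, `n ≡ 3 mod 24`.** -/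
theorem crit_iffA3 (hn : Squarefree n) (h24 : n % 24 = 3) :
    (Finite (EQm (-(n : ℤ))).toAffine.Point ∧
      ∀ x : Sha (EQm (-(n : ℤ))), x + x = 0 → x = 0) ↔ Pool.Agent.N877.P24.Qc n := by
  have h4 : n % 4 = 3 := by omega
  rw [qc_iff hn.ne_zero]
  constructor
  · rintro ⟨h1, h2⟩
    exact qc_of_rc hn h4 (rc_of_fin (cls_A3 hn h24) h1 h2)
  · intro h
    obtain ⟨h1, h2⟩ := finite_of_crit (cls_A3 hn h24) (rc_of hn h4 h) (nc_of hn h4 h)
    refine ⟨h1, fun x hx => h2 1 x ?_⟩
    rw [pow_one, two_nsmul]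
    exact hx

theorem sha_powA3 (hn : Squarefree n) (h24 : n % 24 = 3) (h : Pool.Agent.N877.P24.Qc n) :
    ∀ (k : ℕ) (x : Sha (EQm (-(n : ℤ)))), (2 ^ k : ℕ) • x = 0 → x = 0 := by
  have h4 : n % 4 = 3 := by omega
  rw [qc_iff hn.ne_zero] at h
  exact (finite_of_crit (cls_A3 hn h24) (rc_of hn h4 h) (nc_of hn h4 h)).2

end

end Pool.Agent.N373.P24x
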