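import Pool.Agent.N373.P24x.LinB
import Pool.Agent.N373.P24x.Main

/-!
# The algebraic criterion for the even classes

`E_m : y² = x (x - m) (x + 3 m)`, `m = -n`, `n ≡ 2, 6 mod 12` squarefree.
-/

set_option autoImplicit false

namespace Pool.Agent.N373.P24x

open Pool.Agent.N373.P24 hiding sel_sub sel_finite rc_of_fin finite_of_crit rank_sha
open WeierstrassCurve
open Pool.Agent.TH841.SH.D (Sha)
open Pool.Agent.N875.X15 (RC NC nc_iff_Qe rc_of_nc)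
open Pool.Agent.N969.P15 (Ev Qe)

variable {n : ℕ}

lemma cls_E (hn : Squarefree n) (h4 : n % 4 = 2) (h3 : n % 3 = 0 ∨ n % 3 = 2) :
    ClsX (-(n : ℤ)) := by
  refine ⟨?_, ?_, by omega, by omega⟩
  · have := hn.ne_zero
    omega
  · intro x hx
    rw [dvd_neg] at hx
    exact Int.squarefree_natCast.2 hn x hx

lemma nc_Qe (hn : Squarefree n) (h4 : n % 4 = 2) : NC (-(n : ℤ)) ↔ Qe (4 * n) := by
  have h : Ev (4 * n) := ⟨n, rfl, hn, Or.inr h4⟩
  have h1 := nc_iff_Qe h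
  have e4 : 4 * n / 4 = n := by omega
  rwa [e4] at h1

/-- **The algebraic criterion, `n ≡ 2 mod 4`, `n ≢ 1 mod 3`.** -/
theorem crit_iffE (hn : Squarefree n) (h4 : n % 4 = 2) (h3 : n % 3 = 0 ∨ n % 3 = 2) :
    (Finite (EQm (-(n : ℤ))).toAffine.Point ∧
      ∀ x : Sha (EQm (-(n : ℤ))), x + x = 0 → x = 0) ↔ Qe (4 * n) := by
  have hc := cls_E hn h4 h3
  rw [← nc_Qe hn h4]
  constructor
  · rintro ⟨h1, h2⟩
    exact nc_of_rc hc.neg (by omega) hc.sqf (rc_of_fin hc h1 h2)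
  · intro h
    obtain ⟨h1, h2⟩ := finite_of_crit hc (rc_of_nc hc.neg hc.sqf h) h
    refine ⟨h1, fun x hx => h2 1 x ?_⟩
    rw [pow_one, two_nsmul]
    exact hx

theorem sha_powE (hn : Squarefree n) (h4 : n % 4 = 2) (h3 : n % 3 = 0 ∨ n % 3 = 2)
    (h : Qe (4 * n)) :
    ∀ (k : ℕ) (x : Sha (EQm (-(n : ℤ)))), (2 ^ k : ℕ) • x = 0 → x = 0 := by
  have hc := cls_E hn h4 h3
  rw [← nc_Qe hn h4] at h
  exact (finite_of_crit hc (rc_of_nc hc.neg hc.sqf h) h).2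

end Pool.Agent.N373.P24x
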