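import Pool.Agent.N373.P24x.Min
import Pool.Agent.N373.P24.Odd

/-!
# The facts about `W_n = ⟨0, -2 n, 0, -3 n², 0⟩`, `n` squarefree, `n % 8 = 3` or `n % 4 = 2`

Minimality, Tamagawa numbers, torsion.
-/

set_option autoImplicit false
set_option linter.style.haveILetI false

namespace Pool.Agent.N373.P24x

open Pool.Agent.N373.P24 Pool.Agent.N373.P24.Forms
open WeierstrassCurve

open scoped Classical

/-- the Tamagawa numbers of `W24 n` -/
noncomputable def cX (n p : ℕ) : ℕ :=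
  if p = 2 then (if 2 ∣ n then 4 else 2) else if p = 3 then (if 3 ∣ n then 4 else 2) else
    if p ∣ n then 4 else 1

variable {n : ℕ}

lemma sqf_neg (hn : Squarefree n) : Squarefree (-(n : ℤ)) := by
  intro x hx
  rw [dvd_neg] at hx
  exact Int.squarefree_natCast.2 hn x hx

/-- **Minimality.** -/
theorem minimalX (hn : Squarefree n) (hc : n % 8 = 3 ∨ n % 4 = 2) : Minimal (W24 n) := by
  rw [W24_eq]
  rcases hc with h | h
  · exact min_Em (m := -(n : ℤ)) (by omega) (sqf_neg hn)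
  · exact min_even (m := -(n : ℤ)) (by omega) (sqf_neg hn)

/-- **The Tamagawa numbers.** -/
theorem tamagawaX (hn : Squarefree n) (hc : n % 8 = 3 ∨ n % 4 = 2) :
    IsTamagawa (W24 n) (cX n) := by
  have hsm := sqf_neg hn
  refine isTam _ _ fun p hp => ?_
  rw [W24_eq]
  unfold cX
  split_ifs with h2 h2' h3 h3' h4
  · subst h2
    exact tam_two_even hsm (by omega)
  · subst h2
    refine P24.tam_two ?_
    omega
  · subst h3
    exact tam_three_ram hsm (by omega)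
  · subst h3
    exact tam_three (by omega)
  · exact tam_ram h2 h3 hsm (by rw [dvd_neg]; exact_mod_cast h4)
  · refine tam_good (fun h6 => ?_) (by rw [dvd_neg]; exact_mod_cast h4)
    have h7 : p ∣ 2 * 3 := h6
    rcases (Nat.Prime.dvd_mul hp.out).1 h7 with h8 | h8
    · exact h2 ((Nat.prime_dvd_prime_iff_eq hp.out Nat.prime_two).1 h8)
    · exact h3 ((Nat.prime_dvd_prime_iff_eq hp.out Nat.prime_three).1 h8)

/-- **The product of the Tamagawa numbers.** -/
theorem tamX (hn : Squarefree n) :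
    Tam (W24 n) (cX n) = (if 2 ∣ n then 1 else 2) * (if 3 ∣ n then 1 else 2) *
      4 ^ n.primeFactors.card := by
  unfold Tam
  rw [W24_eq, pf_Δ hn.ne_zero]
  have hn0 := hn.ne_zero
  have ep : ∀ p ∈ n.primeFactors, cX n p = 4 := by
    intro p hp
    obtain ⟨h1, h4, -⟩ := Nat.mem_primeFactors.1 hp
    unfold cX
    split_ifs with h2 h2' h3 h3'
    · rfl
    · subst h2; exact absurd h4 h2'
    · rfl
    · subst h3; exact absurd h4 h3'
    · rfl
  have e4 : ∏ p ∈ n.primeFactors, cX n p = 4 ^ n.primeFactors.card := by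
    rw [Finset.prod_congr rfl ep, Finset.prod_const]
  have c2 : cX n 2 = if 2 ∣ n then 4 else 2 := by unfold cX; rw [if_pos rfl]
  have c3 : cX n 3 = if 3 ∣ n then 4 else 2 := by
    unfold cX; rw [if_neg (by norm_num), if_pos rfl]
  have m3 : 3 ∈ n.primeFactors ↔ 3 ∣ n := by
    rw [Nat.mem_primeFactors]
    exact ⟨fun h => h.2.1, fun h => ⟨Nat.prime_three, h, hn0⟩⟩
  have m2 : 2 ∈ n.primeFactors ↔ 2 ∣ n := by
    rw [Nat.mem_primeFactors]
    exact ⟨fun h => h.2.1, fun h => ⟨Nat.prime_two, h, hn0⟩⟩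
  have s3 : ∏ p ∈ insert 3 n.primeFactors, cX n p = (if 3 ∣ n then 1 else 2) *
      4 ^ n.primeFactors.card := by
    by_cases h : 3 ∣ n
    · rw [Finset.insert_eq_of_mem (m3.2 h), e4, if_pos h, one_mul]
    · rw [Finset.prod_insert (fun h' => h (m3.1 h')), e4, c3, if_neg h, if_neg h]
  by_cases h : 2 ∣ n
  · rw [Finset.insert_eq_of_mem (Finset.mem_insert_of_mem (m2.2 h)), s3, if_pos h, one_mul]
  · rw [Finset.prod_insert, s3, c2, if_neg h, if_neg h]
    · ring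
    · rw [Finset.mem_insert, m2]
      rintro (h' | h')
      · norm_num at h'
      · exact h h'

/-! ### Torsion -/

lemma arithB {m u v w u' : ℤ} (hm : m < 0) (hs : Squarefree m)
    (hv : v ^ 2 = u ^ 2 - m) (hw : w ^ 2 = u ^ 2 + 3 * m)
    (hu : 4 * u ^ 2 * v ^ 2 * w ^ 2 * u' ^ 2 = (u ^ 4 + 3 * m ^ 2) ^ 2) : False := by
  have hco : IsCoprime u m := by
    refine coprime_of (c := 1) hs ?_ (by rw [hv]; ring)
    intro q hq _ hq1
    exact hq.one_lt.ne' (Nat.dvd_one.1 hq1)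
  have hcv : IsCoprime v m := by
    refine coprime_of (U := v) (V := u) (c := -1) hs ?_ (by rw [hv]; ring)
    intro q hq _ hq1
    exact hq.one_lt.ne' (Nat.dvd_one.1 hq1)
  have h2 : u ∣ u ^ 4 + 3 * m ^ 2 := (Int.pow_dvd_pow_iff two_ne_zero).1 (by
    rw [← hu]
    exact ⟨4 * v ^ 2 * w ^ 2 * u' ^ 2, by ring⟩)
  have h2v : v ∣ u ^ 4 + 3 * m ^ 2 := (Int.pow_dvd_pow_iff two_ne_zero).1 (by
    rw [← hu]
    exact ⟨4 * u ^ 2 * w ^ 2 * u' ^ 2, by ring⟩)
  have h3 : u ∣ 3 := by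
    have h4 : u ∣ 3 * m ^ 2 := (dvd_add_right (dvd_pow_self u (by norm_num))).1 h2
    exact (hco.pow_right (n := 2)).dvd_of_dvd_mul_right h4
  have h3v : v ∣ 4 := by
    have e : u ^ 4 + 3 * m ^ 2 = v * (v * (v ^ 2 + 2 * m)) + 4 * m ^ 2 := by
      have : u ^ 2 = v ^ 2 + m := by rw [hv]; ring
      have h5 : u ^ 4 = (v ^ 2 + m) ^ 2 := by rw [← this]; ring
      rw [h5]; ring
    rw [e] at h2v
    have h4 : v ∣ 4 * m ^ 2 := (dvd_add_right (dvd_mul_right v _)).1 h2v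
    exact (hcv.pow_right (n := 2)).dvd_of_dvd_mul_right h4
  have hu1 : u.natAbs ∣ 3 := Int.natAbs_dvd_natAbs.2 h3
  have hv1 : v.natAbs ∣ 4 := Int.natAbs_dvd_natAbs.2 h3v
  have hu2 : u.natAbs ≤ 3 := Nat.le_of_dvd (by norm_num) hu1
  have hv2 : v.natAbs ≤ 4 := Nat.le_of_dvd (by norm_num) hv1
  have hus : u ^ 2 = (u.natAbs : ℤ) ^ 2 := (Int.natAbs_sq u).symm
  have hvs : v ^ 2 = (v.natAbs : ℤ) ^ 2 := (Int.natAbs_sq v).symm
  have hw0 : 0 ≤ u ^ 2 + 3 * m := by rw [← hw]; exact sq_nonneg w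
  rw [hus] at hw0
  rw [hus, hvs] at hv
  have hu3 : 0 < u.natAbs := Nat.pos_of_dvd_of_pos hu1 (by norm_num)
  have hv3 : 0 < v.natAbs := Nat.pos_of_dvd_of_pos hv1 (by norm_num)
  obtain ⟨A, hA⟩ : ∃ A, A = u.natAbs := ⟨_, rfl⟩
  obtain ⟨B, hB⟩ : ∃ B, B = v.natAbs := ⟨_, rfl⟩
  rw [← hA] at hu1 hu2 hu3 hv hw0
  rw [← hB] at hv1 hv2 hv3 hv
  clear hA hB hus hvs hu hw hco hcv h2 h2v h3 h3v
  interval_cases A <;> interval_cases B <;> norm_num at hv hw0 hu1 <;> omega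

variable {m : ℤ}

/-- **There is no nonzero point of odd order.** -/
theorem no_oddX (hs : Squarefree m) (hm : m < 0)
    (P : (EQm m).toAffine.Point) {N : ℕ} (hN : Odd N) (hP : N • P = 0) : P = 0 := by
  by_contra hne
  -- three divides `U` for all nonzero points of odd order
  have stepA : ∀ (x y : ℚ) (h : (EQm m).toAffine.Nonsingular x y),
      N • (Affine.Point.some x y h : (EQm m).toAffine.Point) = 0 →
      ∃ X Y, ∃ H : (EQm m).toAffine.Nonsingular X Y,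
        N • (Affine.Point.some X Y H : (EQm m).toAffine.Point) = 0 ∧
        y ^ 2 = x * (x - m) * (x + 3 * m) ∧ X * (2 * y) ^ 2 = (x ^ 2 + 3 * m ^ 2) ^ 2 := by
    intro x y h hP
    obtain ⟨X, Y, H, e1, e2⟩ := dblQ h (y_ne h hN hP)
    refine ⟨X, Y, H, ?_, eqnQ h, e2⟩
    rw [← e1, nsmul_add, hP, add_zero]
  have stepB : ∀ (x y : ℚ) (h : (EQm m).toAffine.Nonsingular x y),
      N • (Affine.Point.some x y h : (EQm m).toAffine.Point) = 0 →
      ∀ U V W : ℤ, 9 * x = (U : ℚ) ^ 2 → 9 * (x - m) = (V : ℚ) ^ 2 → 9 * (x + 3 * m) = (W : ℚ) ^ 2 →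
        (3 : ℤ) ∣ U := by
    intro x y h hP U V W hU hV hW
    obtain ⟨X, Y, H, hP', q1, q2⟩ := stepA x y h hP
    obtain ⟨U', V', W', hU', -, -⟩ := data hm.ne H hN hP'
    exact arithA hm hs (intV hU hV) (intW hU hW) (rel q1 q2 hU hV hW hU')
  rcases P with _ | ⟨x, y, h⟩
  · exact hne rfl
  obtain ⟨X, Y, H, hP', q1, q2⟩ := stepA x y h hP
  obtain ⟨U, V, W, hU, hV, hW⟩ := data hm.ne h hN hP
  obtain ⟨U', V', W', hU', hV', hW'⟩ := data hm.ne H hN hP'
  have hrel := rel q1 q2 hU hV hW hU'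
  have iV := intV hU hV
  have iW := intW hU hW
  obtain ⟨u, rfl⟩ := stepB x y h hP U V W hU hV hW
  obtain ⟨u', rfl⟩ := stepB X Y H hP' U' V' W' hU' hV' hW'
  have h3 : ∀ z : ℤ, (3 : ℤ) ∣ z ^ 2 → ∃ w, z = 3 * w := fun z hz =>
    Int.prime_three.dvd_of_dvd_pow hz
  obtain ⟨v, rfl⟩ := h3 V (by rw [iV]; exact ⟨3 * u ^ 2 - 3 * m, by ring⟩)
  obtain ⟨w, rfl⟩ := h3 W (by rw [iW]; exact ⟨3 * u ^ 2 + 9 * m, by ring⟩)
  refine arithB (u := u) (v := v) (w := w) (u' := u') hm hs (by linarith) (by linarith) ?_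
  have : 6561 * (4 * u ^ 2 * v ^ 2 * w ^ 2 * u' ^ 2) = 6561 * (u ^ 4 + 3 * m ^ 2) ^ 2 := by
    linear_combination hrel
  exact mul_left_cancel₀ (by norm_num) this

/-- **The torsion subgroup has order four.** -/
theorem tors_fourX (hn : Squarefree n) (h1 : 1 < n) : torsOrder (W24 n) = 4 := by
  have hsm := sqf_neg hn
  obtain ⟨t, ht, he⟩ := tors_Em (m := -(n : ℤ)) (by omega) (by
    have e : (-(((-(n : ℤ)) : ℤ) : ℚ)) = ((n : ℤ) : ℚ) := by push_cast; ring
    rw [e, Rat.isSquare_intCast_iff]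
    rintro ⟨r, hr⟩
    have h2 := Int.squarefree_natCast.2 hn r ⟨1, by rw [hr]; ring⟩
    rcases Int.isUnit_iff.1 h2 with h | h <;> rw [h] at hr <;> omega)
  unfold torsOrder
  rw [W24_eq]
  by_cases ht1 : t = 1
  · show Nat.card (AddCommGroup.torsion (EQm (-(n : ℤ))).toAffine.Point) = 4
    rw [he, ht1]
  exfalso
  obtain ⟨l, hl, hlt⟩ := Nat.exists_prime_and_dvd ht1
  have hl2 : Odd l := by
    obtain ⟨c, rfl⟩ := hlt
    exact (Nat.odd_mul.1 ht).1
  haveI := Fact.mk hl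
  haveI : Finite (AddCommGroup.torsion (EQm (-(n : ℤ))).toAffine.Point) := by
    apply Nat.finite_of_card_ne_zero
    rw [he]
    have := ht.pos
    omega
  obtain ⟨x, hx⟩ := exists_prime_addOrderOf_dvd_card' (G := AddCommGroup.torsion
    (EQm (-(n : ℤ))).toAffine.Point) l (by
      rw [he]
      exact hlt.mul_left 4)
  have h2 : l • x = 0 := by
    rw [← hx]
    exact addOrderOf_nsmul_eq_zero x
  have h3 : l • (x : (EQm (-(n : ℤ))).toAffine.Point) = 0 := congrArg Subtype.val h2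
  have h4 := no_oddX hsm (by omega) _ hl2 h3
  have h5 : x = 0 := Subtype.ext h4
  rw [h5, addOrderOf_zero] at hx
  exact hl.one_lt.ne hx

end Pool.Agent.N373.P24x
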