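import Pool.Agent.N875.X15.Even

/-!
# No nontrivial decomposition of the second kind implies no nontrivial ramified norm, `m ≡ 2 mod 4`
-/

set_option autoImplicit false

namespace Pool.Agent.N373.P24x

open Finset
open Pool.Agent.N875.X15

section lin

variable {ι : Type} [Fintype ι] [DecidableEq ι] (R : ι → ι → ZMod 2)

/-- the transposition in terms of sets, the other direction -/
theorem transB [Nonempty ι] (q0 : ι)
    (h : ∀ s : Finset ι, (∀ q, q ∉ s → ∑ p ∈ s, R p q = 0) →
      (∀ q ∈ s, ∑ p ∈ sᶜ, R p q = 0) → s = ∅ ∨ s = univ)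
    (h0 : ∀ q, q ≠ q0 → ∑ p ∈ univ.erase q, R p q + ∑ p ∈ univ.erase q, R q p = 0)
    (s : Finset ι) (h1 : ∀ q, q ≠ q0 → q ∉ s → ∑ p ∈ s, R q p = 0)
    (h2 : ∀ q, q ≠ q0 → q ∈ s → ∑ p ∈ univ.erase q, R p q + ∑ p ∈ s.erase q, R q p = 0) :
    s = ∅ ∨ s = univ := by
  have h01 : ∀ c : ZMod 2, c = 0 ∨ c = 1 := by decide
  have hcc : ∀ c : ZMod 2, c + c = 0 := by decide
  let M : Matrix ι ι (ZMod 2) := Matrix.of fun q p =>
    if q = p then ∑ r ∈ univ.erase q, R r q else R p q
  let v : Finset ι → ι → ZMod 2 := fun s p => if p ∈ s then 1 else 0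
  have vinj : ∀ s s' : Finset ι, v s = v s' → s = s' := by
    intro s s' he
    ext p
    have := congrFun he p
    by_cases c1 : p ∈ s <;> by_cases c2 : p ∈ s' <;> simp [v, c1, c2] at this ⊢
  have vsur : ∀ y : ι → ZMod 2, ∃ s, v s = y := by
    intro y
    refine ⟨univ.filter fun p => y p = 1, ?_⟩
    funext p
    show (if p ∈ univ.filter (fun p => y p = 1) then (1 : ZMod 2) else 0) = y p
    rcases h01 (y p) with c | c
    · rw [c, if_neg (by simp [c])]
    · rw [c, if_pos (by simp [c])]
  have hM : ∀ (s : Finset ι) (q : ι), M.mulVec (v s) q =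
      (∑ r ∈ univ.erase q, R r q) * v s q + ∑ p ∈ s.erase q, R p q := by
    intro s q
    rw [Matrix.mulVec, dotProduct, ← Finset.add_sum_erase _ _ (Finset.mem_univ q)]
    congr 1
    · show (if q = q then _ else _) * _ = _
      rw [if_pos rfl]
    · have e1 : ∑ x ∈ univ.erase q, M q x * v s x = ∑ x ∈ univ.erase q, if x ∈ s then R x q else 0 := by
        refine Finset.sum_congr rfl fun p hp => ?_
        show (if q = p then _ else _) * (if p ∈ s then _ else _) = _
        rw [if_neg (Finset.ne_of_mem_erase hp).symm]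
        split_ifs
        · rw [mul_one]
        · rw [mul_zero]
      rw [e1, ← Finset.sum_filter]
      congr 1
      ext p
      simp only [mem_filter, mem_erase, mem_univ, and_true]
  have hMT : ∀ (s : Finset ι) (q : ι), M.transpose.mulVec (v s) q =
      (∑ r ∈ univ.erase q, R r q) * v s q + ∑ p ∈ s.erase q, R q p := by
    intro s q
    rw [Matrix.mulVec, dotProduct, ← Finset.add_sum_erase _ _ (Finset.mem_univ q)]
    congr 1
    · show (if q = q then _ else _) * _ = _
      rw [if_pos rfl]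
    · have e1 : ∑ x ∈ univ.erase q, M.transpose q x * v s x =
          ∑ x ∈ univ.erase q, if x ∈ s then R q x else 0 := by
        refine Finset.sum_congr rfl fun p hp => ?_
        show (if p = q then _ else _) * (if p ∈ s then _ else _) = _
        rw [if_neg (Finset.ne_of_mem_erase hp)]
        split_ifs
        · rw [mul_one]
        · rw [mul_zero]
      rw [e1, ← Finset.sum_filter]
      congr 1
      ext p
      simp only [mem_filter, mem_erase, mem_univ, and_true]
  have e0 : v ∅ = 0 := by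
    funext p
    simp [v]
  have eu : v univ = 1 := by
    funext p
    simp [v]
  -- the rows of `M` sum to zero
  have hM1 : M.mulVec 1 = 0 := by
    rw [← eu]
    funext q
    rw [hM]
    have : v univ q = 1 := by simp [v]
    rw [this, mul_one]
    exact hcc _
  have hrow : ∀ x : ι → ZMod 2, ∑ q, M.transpose.mulVec x q = 0 := by
    intro x
    have e : ∑ q, M.transpose.mulVec x q = ∑ p, x p * M.mulVec 1 p := by
      simp only [Matrix.mulVec, dotProduct, Matrix.transpose_apply, Pi.one_apply, mul_one,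
        Finset.mul_sum]
      rw [Finset.sum_comm]
      refine Finset.sum_congr rfl fun p _ => Finset.sum_congr rfl fun q _ => mul_comm _ _
    rw [e, hM1]
    simp
  have hzero : ∀ x : ι → ZMod 2, (∀ q, q ≠ q0 → M.transpose.mulVec x q = 0) →
      M.transpose.mulVec x = 0 := by
    intro x hx
    funext q
    by_cases hq : q = q0
    · have h3 := hrow x
      rw [← Finset.add_sum_erase _ _ (Finset.mem_univ q0), Finset.sum_eq_zero (fun p hp =>
        hx p (Finset.ne_of_mem_erase hp)), add_zero] at h3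
      rw [hq]
      exact h3
    · exact hx q hq
  have hT : ∀ x : ι → ZMod 2, M.transpose.transpose.mulVec x = 0 → x = 0 ∨ x = v univ := by
    intro x hx
    rw [Matrix.transpose_transpose] at hx
    obtain ⟨s, rfl⟩ := vsur x
    rw [← e0]
    rcases h s (fun q hq => by
        have h3 := congrFun hx q
        rw [hM, Finset.erase_eq_of_notMem hq] at h3
        have h4 : v s q = 0 := by simp [v, hq]
        rw [h4, mul_zero, zero_add] at h3
        exact h3) (fun q hq => by
        have h3 := congrFun hx q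
        rw [hM] at h3
        have h4 : v s q = 1 := by simp [v, hq]
        rw [h4, mul_one] at h3
        have h5 : ∑ r ∈ univ.erase q, R r q = ∑ p ∈ s.erase q, R p q + ∑ p ∈ sᶜ, R p q := by
          rw [← Finset.sum_union]
          · congr 1
            ext p
            simp only [mem_erase, mem_univ, and_true, mem_union, mem_compl]
            constructor
            · intro hp
              by_cases c : p ∈ s
              · exact Or.inl ⟨hp, c⟩
              · exact Or.inr c
            · rintro (⟨hp, -⟩ | hp)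
              · exact hp
              · rintro rfl
                exact hp hq
          · rw [Finset.disjoint_left]
            intro p hp hp'
            rw [mem_compl] at hp'
            exact hp' (mem_erase.1 hp).2
        rw [h5] at h3
        have h6 : ∀ a b : ZMod 2, a + b + a = 0 → b = 0 := by decide
        exact h6 _ _ h3) with h5 | h5
    · left; rw [h5]
    · right; rw [h5]
  have hne : v univ ≠ 0 := by
    intro h3
    have h4 := congrFun h3 (Classical.arbitrary ι)
    rw [eu] at h4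
    exact one_ne_zero (α := ZMod 2) h4
  have h1' : M.transpose.mulVec (v univ) = 0 := by
    refine hzero _ fun q hq => ?_
    rw [hMT]
    have h4 : v univ q = 1 := by simp [v]
    rw [h4, mul_one]
    exact h0 q hq
  have hs : M.transpose.mulVec (v s) = 0 := by
    refine hzero _ fun q hq => ?_
    rw [hMT]
    by_cases hqs : q ∈ s
    · have h3 : v s q = 1 := by simp [v, hqs]
      rw [h3, mul_one]
      exact h2 q hq hqs
    · have h3 : v s q = 0 := by simp [v, hqs]
      rw [h3, mul_zero, zero_add, Finset.erase_eq_of_notMem hqs]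
      exact h1 q hq hqs
  rcases ker_transpose M.transpose (v univ) hT (v univ) hne h1' (v s) hs with h3 | h3
  · left
    apply vinj
    rw [h3, e0]
  · right
    exact vinj _ _ h3

end lin

/-- the transposition for sets of natural numbers -/
theorem transBN (P : Finset ℕ) (R : ℕ → ℕ → ZMod 2) (q0 : ℕ) (hq0 : q0 ∈ P)
    (h : ∀ S : Finset ℕ, S ⊆ P → (∀ q ∈ P, q ∉ S → ∑ p ∈ S, R p q = 0) →
      (∀ q ∈ S, ∑ p ∈ P \ S, R p q = 0) → S = ∅ ∨ S = P)
    (h0 : ∀ q ∈ P, q ≠ q0 → ∑ p ∈ P.erase q, R p q + ∑ p ∈ P.erase q, R q p = 0)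
    (S : Finset ℕ) (hS : S ⊆ P) (h1 : ∀ q ∈ P, q ≠ q0 → q ∉ S → ∑ p ∈ S, R q p = 0)
    (h2 : ∀ q ∈ S, q ≠ q0 → ∑ p ∈ P.erase q, R p q + ∑ p ∈ S.erase q, R q p = 0) :
    S = ∅ ∨ S = P := by
  classical
  have hne : Nonempty {p // p ∈ P} := ⟨⟨q0, hq0⟩⟩
  set em : {p // p ∈ P} ↪ ℕ := Function.Embedding.subtype _ with hem
  have emv : ∀ p : {p // p ∈ P}, em p = p.1 := fun p => rfl
  have mem : ∀ (s : Finset {p // p ∈ P}) (q : {p // p ∈ P}), q.1 ∈ s.map em ↔ q ∈ s := by
    intro s q
    rw [← emv, Finset.mem_map' em]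
  have sub : ∀ s : Finset {p // p ∈ P}, s.map em ⊆ P := by
    intro s p hp
    obtain ⟨q, -, rfl⟩ := Finset.mem_map.1 hp
    exact q.2
  have huniv : (univ : Finset {p // p ∈ P}).map em = P := by
    ext p
    rw [Finset.mem_map]
    constructor
    · rintro ⟨q, -, rfl⟩
      exact q.2
    · intro hp
      exact ⟨⟨p, hp⟩, Finset.mem_univ _, rfl⟩
  have hsum : ∀ (s : Finset {p // p ∈ P}) (f : ℕ → ZMod 2), ∑ p ∈ s, f p.1 = ∑ p ∈ s.map em, f p := by
    intro s f
    rw [Finset.sum_map]
    rfl
  have hSm : (S.subtype (· ∈ P)).map em = S := by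
    ext p
    rw [Finset.mem_map]
    constructor
    · rintro ⟨q, hq, rfl⟩
      exact Finset.mem_subtype.1 hq
    · intro hp
      exact ⟨⟨p, hS hp⟩, Finset.mem_subtype.2 hp, rfl⟩
  have key := transB (fun p q : {p // p ∈ P} => R p.1 q.1) ⟨q0, hq0⟩ (fun s c1 c2 => by
    rcases h (s.map em) (sub s) (fun q hq hqs => by
        have h3 := c1 ⟨q, hq⟩ (fun h4 => hqs ((mem s ⟨q, hq⟩).2 h4))
        rw [hsum s (fun p => R p q)] at h3
        exact h3) (fun q hq => by
        obtain ⟨q', hq', rfl⟩ := Finset.mem_map.1 hq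
        have h3 := c2 q' hq'
        rw [hsum sᶜ (fun p => R p q'.1), Finset.compl_eq_univ_sdiff, Finset.map_sdiff, huniv] at h3
        exact h3) with h3 | h3
    · left
      exact Finset.map_eq_empty.1 h3
    · right
      exact Finset.map_injective em (h3.trans huniv.symm)) (fun q hq => by
      have h3 := h0 q.1 q.2 (fun h4 => hq (Subtype.ext h4))
      rw [hsum (univ.erase q) (fun p => R p q.1), hsum (univ.erase q) (fun p => R q.1 p),
        Finset.map_erase, huniv]
      exact h3) (S.subtype (· ∈ P)) (fun q hq hqs => by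
      rw [hsum _ (fun p => R q.1 p), hSm]
      exact h1 q.1 q.2 (fun h4 => hq (Subtype.ext h4)) (fun h3 => hqs (Finset.mem_subtype.2 h3)))
      (fun q hq hqs => by
      rw [hsum (univ.erase q) (fun p => R p q.1), hsum _ (fun p => R q.1 p),
        Finset.map_erase, Finset.map_erase, huniv, hSm]
      exact h2 q.1 (Finset.mem_subtype.1 hqs) (fun h4 => hq (Subtype.ext h4)))
  rcases key with h3 | h3
  · left
    rw [← hSm, h3, Finset.map_empty]
  · right
    rw [← hSm, h3, huniv]

/-- squares up to the sign -/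
lemma neg_sq {q : ℕ} [hq : Fact q.Prime] (hq2 : q ≠ 2) : IsSquare (((-(sgp q * q) : ℤ)) : ℚ_[q]) := by
  unfold sgp
  split_ifs with h6
  · have h7 : IsSquare ((-1 : ℤ) : ℚ_[q]) := by
      refine sq_of_zmod hq2 ?_ ?_
      · intro h8
        have h9 : q ∣ 1 := by
          rw [dvd_neg] at h8
          exact_mod_cast h8
        exact hq.out.one_lt.ne' (Nat.dvd_one.1 h9)
      · push_cast
        rw [ZMod.exists_sq_eq_neg_one_iff]
        omega
    have e3 : (((-((q : ℤ) * q) : ℤ)) : ℚ_[q]) = ((-1 : ℤ) : ℚ_[q]) * (q * q) := by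
      push_cast
      ring
    rw [e3]
    exact h7.mul (IsSquare.mul_self _)
  · have e3 : (((-(-(q : ℤ) * q) : ℤ)) : ℚ_[q]) = (q : ℚ_[q]) * q := by
      push_cast
      ring
    rw [e3]
    exact IsSquare.mul_self _

/-- the local condition at an odd prime in terms of the characters -/
theorem col {m : ℤ} (hs : Squarefree m) (S : Finset ℕ) (hS : S ⊆ PR m) {q : ℕ} [hq : Fact q.Prime]
    (hq2 : q ≠ 2) (hqm : (q : ℤ) ∣ m)
    (hl : IsSquare (((∏ p ∈ S, ((p : ℕ) : ℤ) : ℤ)) : ℚ_[q]) ∨
      IsSquare ((((∏ p ∈ S, ((p : ℕ) : ℤ) : ℤ)) : ℚ_[q]) * (-m))) :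
    (q ∉ S → ∑ p ∈ S, ra p (ps m q) = 0) ∧
    (q ∈ S → ∑ p ∈ (PR m).erase q, ra q (ps m p) + ∑ p ∈ S.erase q, ra p (ps m q) = 0) := by
  have hm0 := hs.ne_zero
  have hpr : ∀ p ∈ PR m, p.Prime := fun p hp => ((mem_PR hm0).1 hp).1
  have hqP : q ∈ PR m := (mem_PR hm0).2 ⟨hq.out, Or.inl hqm⟩
  -- reciprocity
  have hrec : ∀ T : Finset ℕ, T ⊆ PR m →
      ∑ p ∈ T, ra p (ps m q) = ∑ p ∈ T, ra q ((p : ℕ) : ℤ) := by
    intro T hT
    refine Finset.sum_congr rfl fun p hp => ?_
    unfold ra
    rw [ps_odd hq2, recip_ch (hpr p (hT hp)) hq.out hq2, ch_odd hq2]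
  set d : ℤ := ∏ p ∈ S, ((p : ℕ) : ℤ) with hd
  have hdn : d = ((∏ p ∈ S, p : ℕ) : ℤ) := by rw [hd]; push_cast; rfl
  have hsqN : Squarefree (∏ p ∈ S, p) := sqf_prod S fun p hp => hpr p (hS hp)
  have hds : Squarefree d := by rw [hdn]; exact Int.squarefree_natCast.2 hsqN
  have hd0 : (d : ℚ_[q]) ≠ 0 := by exact_mod_cast hds.ne_zero
  have hm' : (m : ℚ_[q]) ≠ 0 := by exact_mod_cast hm0
  have hpd : ((q : ℤ) ∣ d ↔ q ∈ S) := by
    rw [hdn, Int.natCast_dvd_natCast, Prime.dvd_finsetProd_iff hq.out.prime]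
    constructor
    · rintro ⟨r, hr, hpr'⟩
      rw [(Nat.prime_dvd_prime_iff_eq hq.out (hpr r (hS hr))).1 hpr']
      exact hr
    · intro h
      exact ⟨q, h, dvd_rfl⟩
  have vm : (m : ℚ_[q]).valuation = 1 := val_one hqm hs
  have vnm : (-(m : ℚ_[q])).valuation = 1 := by rw [val_neg, vm]
  constructor
  · intro hqS
    have vd : (d : ℚ_[q]).valuation = 0 := val_zero (fun h => hqS (hpd.1 h))
    have h5 : IsSquare (d : ℚ_[q]) := by
      rcases hl with h | h
      · exact h
      · exfalso
        have := even_val (mul_ne_zero hd0 (neg_ne_zero.2 hm')) h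
        rw [Padic.valuation_mul hd0 (neg_ne_zero.2 hm'), vd, vnm] at this
        exact absurd this (by decide)
    rw [hrec _ hS]
    have g2 : ∀ p ∈ S, Gd q ((p : ℕ) : ℤ) := fun p hp =>
      gd_nat (hpr p (hS hp)) hq.out hq2 (fun h => hqS (h ▸ hp))
    rw [sum_ra hq.out _ _ g2]
    exact (ch_iff (gd_prod hq.out _ _ g2)).2 h5
  · intro hqS
    have vd : (d : ℚ_[q]).valuation = 1 := val_one (hpd.2 hqS) hds
    have h5 : IsSquare ((d : ℚ_[q]) * (-m)) := by
      rcases hl with h | h
      · exfalso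
        have := even_val hd0 h
        rw [vd] at this
        exact absurd this (by decide)
      · exact h
    rw [hrec _ ((Finset.erase_subset _ _).trans hS)]
    have g1 : ∀ p ∈ (PR m).erase q, Gd q (ps m p) := fun p hp =>
      gd_ps hs (hpr p (Finset.mem_of_mem_erase hp)) hq.out (Finset.ne_of_mem_erase hp)
    have g2 : ∀ p ∈ S.erase q, Gd q ((p : ℕ) : ℤ) := fun p hp =>
      gd_nat (hpr p (hS (Finset.mem_of_mem_erase hp))) hq.out hq2 (Finset.ne_of_mem_erase hp)
    have e1 : ps m q * ∏ p ∈ (PR m).erase q, ps m p = m := by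
      rw [Finset.mul_prod_erase _ _ hqP, prod_PR hs]
    have e2 : ((q : ℕ) : ℤ) * ∏ p ∈ S.erase q, ((p : ℕ) : ℤ) = d :=
      Finset.mul_prod_erase _ _ hqS
    have hneg := neg_sq hq2
    have e4 : ((d : ℤ) : ℚ_[q]) * (-(m : ℚ_[q])) = (((-(sgp q * q) : ℤ)) : ℚ_[q]) *
        ((((∏ p ∈ (PR m).erase q, ps m p) * ∏ p ∈ S.erase q, ((p : ℕ) : ℤ) : ℤ)) : ℚ_[q]) := by
      rw [← ps_odd (m := m) hq2]
      have : d * (-m) = (-(ps m q * q)) * ((∏ p ∈ (PR m).erase q, ps m p) *
        ∏ p ∈ S.erase q, ((p : ℕ) : ℤ)) := by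
        rw [← e2]
        conv_lhs => rw [← e1]
        ring
      exact_mod_cast this
    rw [e4] at h5
    have hq0 : (((-(sgp q * q) : ℤ)) : ℚ_[q]) ≠ 0 := by
      have h6 : sgp q ≠ 0 := by
        intro h7
        have := sgp_abs q
        rw [h7, Int.natAbs_zero] at this
        exact hq.out.ne_zero this.symm
      have h8 : ((q : ℕ) : ℤ) ≠ 0 := by exact_mod_cast hq.out.ne_zero
      exact_mod_cast neg_ne_zero.2 (mul_ne_zero h6 h8)
    have h6 := sq_cancel hq0 hneg h5
    have h7 := (ch_iff (gd_mul hq.out (gd_prod hq.out _ _ g1) (gd_prod hq.out _ _ g2))).2 h6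
    rw [ch_mul (gd_prod hq.out _ _ g1) (gd_prod hq.out _ _ g2), ← sg_sum_ra hq.out _ _ g1,
      ← sg_sum_ra hq.out _ _ g2, ← sg_add] at h7
    exact sg_inj.1 h7

/-- **No nontrivial decomposition of the second kind implies no nontrivial ramified norm.** -/
theorem nc_of_rc {m : ℤ} (hm : m < 0) (h4 : m % 4 = 2) (hs : Squarefree m) (hR : RC m) : NC m := by
  classical
  intro d hdpos hds hsup hloc
  have hm0 := hs.ne_zero
  have hpr : ∀ p ∈ PR m, p.Prime := fun p hp => ((mem_PR hm0).1 hp).1
  have h2P : 2 ∈ PR m := (two_mem_PR hm0).2 (by omega)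
  have hram : ∀ p : ℕ, p.Prime → (p ∈ PR m ↔ (p : ℤ) ∣ m) := by
    intro p hp
    rw [mem_PR hm0]
    constructor
    · rintro ⟨-, h | ⟨h, -⟩⟩
      · exact h
      · rw [h]
        push_cast
        omega
    · intro h
      exact ⟨hp, Or.inl h⟩
  have psabs : ∀ p ∈ PR m, (ps m p).natAbs = p := by
    intro p hp
    by_cases h : p = 2
    · subst h
      rw [ps_two]
      rcases (d2_spec hs).2 with ⟨h5, -⟩ | ⟨-, h5 | h5⟩
      · exfalso
        apply h5
        omega
      · rw [h5]; rfl
      · rw [h5]; rfl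
    · rw [ps_odd h, sgp_abs]
  have prabs : ∀ S : Finset ℕ, S ⊆ PR m → (∏ p ∈ S, ps m p).natAbs = ∏ p ∈ S, p := by
    intro S hS
    induction S using Finset.induction_on with
    | empty => rfl
    | insert a s ha ih =>
      rw [Finset.prod_insert ha, Finset.prod_insert ha, Int.natAbs_mul,
        psabs a (hS (Finset.mem_insert_self _ _)), ih ((Finset.subset_insert _ _).trans hS)]
  -- products of primes
  have hdv : ∀ (S : Finset ℕ), S ⊆ PR m → ∀ p : ℕ, p.Prime → (p ∣ ∏ q ∈ S, q ↔ p ∈ S) := by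
    intro S hS p hp
    rw [Prime.dvd_finsetProd_iff hp.prime]
    constructor
    · rintro ⟨r, hr, hpr'⟩
      rw [(Nat.prime_dvd_prime_iff_eq hp (hpr r (hS hr))).1 hpr']
      exact hr
    · intro h
      exact ⟨p, h, dvd_rfl⟩
  have hmabs : ∏ p ∈ PR m, p = m.natAbs := by
    rw [← prabs _ (Finset.Subset.refl _), prod_PR hs]
  set S : Finset ℕ := d.natAbs.primeFactors with hSd
  have hSP : S ⊆ PR m := by
    intro p hp
    obtain ⟨h1, h2, -⟩ := Nat.mem_primeFactors.1 hp
    exact (mem_PR hm0).2 ⟨h1, hsup p h1 (Int.natCast_dvd.2 h2)⟩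
  have hprodS : ∏ p ∈ S, ((p : ℕ) : ℤ) = d := by
    have h1 : ∏ p ∈ S, p = d.natAbs :=
      Nat.prod_primeFactors_of_squarefree (Int.squarefree_natAbs.2 hds)
    have h2 : ((∏ p ∈ S, p : ℕ) : ℤ) = d := by
      rw [h1]
      exact Int.natAbs_of_nonneg hdpos.le
    rw [← h2]
    push_cast
    rfl
  have hprodP : ∏ p ∈ PR m, ((p : ℕ) : ℤ) = -m := by
    have h2 : ((∏ p ∈ PR m, p : ℕ) : ℤ) = -m := by
      rw [hmabs]
      omega
    rw [← h2]
    push_cast
    rfl
  have main := transBN (PR m) (fun p q => ra q (ps m p)) 2 h2P (fun T hT c1 c2 => by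
      -- a decomposition of the second kind
      set e : ℤ := ∏ p ∈ T, ps m p with he
      have hea : e.natAbs = ∏ p ∈ T, p := prabs T hT
      have hes : Squarefree e := by
        rw [← Int.squarefree_natAbs, hea]
        exact sqf_prod T fun p hp => hpr p (hT hp)
      have hed : ∀ p : ℕ, p.Prime → ((p : ℤ) ∣ e ↔ p ∈ T) := by
        intro p hp
        rw [Int.natCast_dvd, hea]
        exact hdv T hT p hp
      rcases hR e hes (fun p hp hpe => ((mem_PR hm0).1 (hT ((hed p hp).1 hpe))).2)
        (fun h => by omega) (fun q hq hram' => by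
          have hqP : q ∈ PR m := (mem_PR hm0).2 ⟨hq.out, hram'⟩
          by_cases hqT : q ∈ T
          · right
            have h3 := c2 q hqT
            have g1 : ∀ p ∈ PR m \ T, Gd q (ps m p) := fun p hp =>
              gd_ps hs (hpr p (Finset.mem_sdiff.1 hp).1) hq.out (fun h =>
                (Finset.mem_sdiff.1 hp).2 (h ▸ hqT))
            rw [sum_ra hq.out _ _ g1] at h3
            have h4 := (ch_iff (gd_prod hq.out _ _ g1)).1 h3
            have e1 : (∏ p ∈ PR m \ T, ps m p) * e = m := by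
              rw [he, Finset.prod_sdiff hT, prod_PR hs]
            have e2 : (e : ℚ_[q]) * m = (e * e) * (((∏ p ∈ PR m \ T, ps m p : ℤ)) : ℚ_[q]) := by
              have : e * m = (e * e) * ∏ p ∈ PR m \ T, ps m p := by
                conv_lhs => rw [← e1]
                ring
              exact_mod_cast this
            rw [e2]
            exact (IsSquare.mul_self _).mul h4
          · left
            have h3 := c1 q hqP hqT
            have g1 : ∀ p ∈ T, Gd q (ps m p) := fun p hp =>
              gd_ps hs (hpr p (hT hp)) hq.out (fun h => hqT (h ▸ hp))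
            rw [sum_ra hq.out _ _ g1] at h3
            exact (ch_iff (gd_prod hq.out _ _ g1)).1 h3) with h5 | h5
      · left
        rw [Finset.eq_empty_iff_forall_notMem]
        intro p hp
        have hpp := hpr p (hT hp)
        have h6 := (hed p hpp).2 hp
        rw [h5] at h6
        have h7 : p ∣ 1 := by exact_mod_cast h6
        exact hpp.one_lt.ne' (Nat.dvd_one.1 h7)
      · right
        refine Finset.Subset.antisymm hT fun p hp => ?_
        have hpp := hpr p hp
        rw [← hed p hpp, h5]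
        exact (hram p hpp).1 hp)
    (fun q hq hq2 => by
      have hqp := hpr q hq
      have : Fact q.Prime := ⟨hqp⟩
      have hqm := (hram q hqp).1 hq
      exact (col hs (PR m) (Finset.Subset.refl _) hq2 hqm (by
        right
        rw [hprodP]
        push_cast
        exact IsSquare.mul_self _)).2 hq)
    S hSP
    (fun q hq hq2 hqS => by
      have hqp := hpr q hq
      have : Fact q.Prime := ⟨hqp⟩
      have hqm := (hram q hqp).1 hq
      exact (col hs S hSP hq2 hqm (by
        rw [hprodS]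
        exact hloc q hq2 hqm)).1 hqS)
    (fun q hqS hq2 => by
      have hq := hSP hqS
      have hqp := hpr q hq
      have : Fact q.Prime := ⟨hqp⟩
      have hqm := (hram q hqp).1 hq
      exact (col hs S hSP hq2 hqm (by
        rw [hprodS]
        exact hloc q hq2 hqm)).2 hqS)
  rcases main with h5 | h5
  · left
    rw [← hprodS, h5, Finset.prod_empty]
  · right
    rw [← hprodS, h5, hprodP]

end Pool.Agent.N373.P24x
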