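import Pool.Agent.N373.P24.Conv

/-!
# Local conditions for `y² = x (x - m) (x + 3 m)`: the other classes

`3 ∣ m`: the local condition at `3`.  `m` even: the local condition at `2`.
-/

set_option autoImplicit false

namespace Pool.Agent.N373.P24x

open Pool.Agent.N373.P24
open Pool.Agent.TH841.SH (LocC SelG)
open Pool.Agent.Y667.RP (mod_of_sq)
open Pool.Agent.N875.X15 (norm_lt_iff norm_le_iff norm_eq_iff close closeV val_add_ge even_val
  sq_cancel sq_trans loc_ram loc_unr close2 sq_of_mod8 unit_part unit_odd int_of_sq val_add_eq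
  val_zero val_p val_one not_dvd_of_even val_mul_unit not_dvd_of_prime sq_mod3 drop to_coord)

/-- the classes of `m` -/
structure ClsX (m : ℤ) : Prop where
  neg : m < 0
  sqf : Squarefree m
  m2 : m % 8 = 5 ∨ m % 4 = 2
  m3 : m % 3 = 0 ∨ m % 3 = 1

lemma ClsX.ne {m : ℤ} (hm : ClsX m) : m ≠ 0 := hm.neg.ne

/-- the four possibilities at a ramified prime -/
def Opt (K : Type) [Field K] (m d1 d2 : ℤ) : Prop :=
  (IsSquare (d1 : K) ∧ IsSquare (d2 : K)) ∨
    (IsSquare ((d1 : K) * (-3)) ∧ IsSquare ((d2 : K) * (-m))) ∨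
    (IsSquare ((d1 : K) * m) ∧ IsSquare (d2 : K)) ∨
    (IsSquare ((d1 : K) * (-3 * m)) ∧ IsSquare ((d2 : K) * (-m)))

/-- **The local condition at `3`, `3 ∣ m`.** -/
theorem loc_dvd3 {m d1 d2 : ℤ} (hm : Squarefree m) (hpm : (3 : ℤ) ∣ m)
    (h : LocC ℚ_[3] 0 m (-3 * m) d1 d2) : Opt ℚ_[3] m d1 d2 := by
  obtain ⟨u, hu, hv, hw, hs, h1, h2⟩ := locC_iff h
  have hm0 : m ≠ 0 := hm.ne_zero
  have hm' : (m : ℚ_[3]) ≠ 0 := by exact_mod_cast hm0
  have vm : (m : ℚ_[3]).valuation = 1 := val_one (p := 3) (by exact_mod_cast hpm) hm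
  have v4 : (4 * (m : ℚ_[3])).valuation = 1 := by
    have := val_mul_unit (p := 3) (n := m) 4 (by norm_num) hm0
    push_cast at this
    rw [this, vm]
  have v3 : (3 * (m : ℚ_[3])).valuation = 2 := by
    rw [Padic.valuation_mul (by norm_num) hm', vm]
    have : (3 : ℚ_[3]) = ((3 : ℕ) : ℚ_[3]) := by norm_num
    rw [this, Padic.valuation_p]
    norm_num
  have n3 : (3 * (m : ℚ_[3])) ≠ 0 := mul_ne_zero (by norm_num) hm'
  have n4 : (4 * (m : ℚ_[3])) ≠ 0 := mul_ne_zero (by norm_num) hm'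
  have q4 : (4 : ℚ_[3]) ≠ 0 := by norm_num
  -- `u' = u`, `v' = u + 3 m`, `w' = u - m`
  have E1 : u + 3 * (m : ℚ_[3]) - u = 3 * m := by ring
  have E2 : u - (m : ℚ_[3]) - u = -m := by ring
  have E3 : u - (m : ℚ_[3]) - (u + 3 * m) = 4 * (-m) := by ring
  have E1' : u - (u + 3 * (m : ℚ_[3])) = -3 * m := by ring
  have E2' : u - (u - (m : ℚ_[3])) = m := by ring
  have E3' : u + 3 * (m : ℚ_[3]) - (u - m) = 4 * m := by ring
  have hs' : IsSquare (u * (u + 3 * m) * (u - (m : ℚ_[3]))) := by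
    have e : u * (u + 3 * m) * (u - (m : ℚ_[3])) = u * (u - m) * (u + 3 * m) := by ring
    rwa [e]
  have := loc_ram (by norm_num) (u := u) (v := u + 3 * (m : ℚ_[3])) (w := u - m) hu hw hv hs'
    (by rw [E1]; exact n3) (by rw [E2]; exact neg_ne_zero.2 hm')
    (by rw [E3, mul_neg]; exact neg_ne_zero.2 n4) (l := 2) (k := 1) (by rw [E1, v3])
    (by rw [E2, val_neg, vm]) (by rw [E3, mul_neg, val_neg, v4]) (by norm_num) (by decide)
  rw [E1, E2, E3, E1', E2', E3'] at this
  have hone : ∀ {x : ℚ_[3]}, IsSquare x → IsSquare (x * 1) := fun h => by rwa [mul_one]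
  rcases this with ⟨a, b⟩ | ⟨a, b⟩ | ⟨a, b⟩ | ⟨a, b⟩
  · left
    have c : IsSquare (u - (m : ℚ_[3])) := by
      exact sq_cancel (mul_ne_zero hu hw) (a.mul b) hs'
    have c1 := to_coord hu (hone a) h1
    have c2 := to_coord hv (hone c) h2
    rw [mul_one] at c1 c2
    exact ⟨c1, c2⟩
  · right; left
    refine ⟨?_, to_coord hv b h2⟩
    have c : IsSquare (u * (-3)) := by
      have c1 := hs.mul (a.mul b)
      have e : u * (u - (m : ℚ_[3])) * (u + 3 * m) * ((u + 3 * m) * (3 * m) *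
          ((u - (m : ℚ_[3])) * (-m))) =
        (((u - (m : ℚ_[3])) * (u + 3 * m) * m) * ((u - (m : ℚ_[3])) * (u + 3 * m) * m)) *
          (u * (-3)) := by ring
      rw [e] at c1
      have h0 : (u - (m : ℚ_[3])) * (u + 3 * m) * m ≠ 0 := mul_ne_zero (mul_ne_zero hv hw) hm'
      exact sq_cancel (mul_ne_zero h0 h0) (IsSquare.mul_self _) c1
    exact to_coord hu c h1
  · right; right; right
    exact ⟨to_coord hu a h1, to_coord hv (drop sq4' q4 b) h2⟩
  · right; right; left
    refine ⟨to_coord hu a h1, ?_⟩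
    have b' : IsSquare ((u + 3 * (m : ℚ_[3])) * m) := drop sq4' q4 b
    have c : IsSquare ((u - (m : ℚ_[3])) * 1) := by
      have c1 := hs.mul (a.mul b')
      have e : u * (u - (m : ℚ_[3])) * (u + 3 * m) * (u * m * ((u + 3 * m) * m)) =
        ((u * (u + 3 * m) * m) * (u * (u + 3 * m) * m)) * ((u - (m : ℚ_[3])) * 1) := by ring
      rw [e] at c1
      have h0 : u * (u + 3 * (m : ℚ_[3])) * m ≠ 0 := mul_ne_zero (mul_ne_zero hu hw) hm'
      exact sq_cancel (mul_ne_zero h0 h0) (IsSquare.mul_self _) c1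
    have := to_coord hv c h2
    rwa [mul_one] at this

/-- **The local condition at the odd primes dividing `m`.** -/
theorem loc_opt (p : ℕ) [hp : Fact p.Prime] (hp2 : p ≠ 2) {m d1 d2 : ℤ} (hm : Squarefree m)
    (hpm : (p : ℤ) ∣ m) (h : LocC ℚ_[p] 0 m (-3 * m) d1 d2) : Opt ℚ_[p] m d1 d2 := by
  by_cases h3 : p = 3
  · subst h3
    exact loc_dvd3 hm (by exact_mod_cast hpm) h
  · exact loc_dvd hp2 h3 hm hpm h

/-! ### The prime `2`, `m ≡ 2 mod 4` -/

section two

lemma v_two : ((2 : ℚ_[2])).valuation = 1 := by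
  have : (2 : ℚ_[2]) = ((2 : ℕ) : ℚ_[2]) := by norm_num
  rw [this, Padic.valuation_p]

lemma v_m {m : ℤ} (hm : m % 4 = 2) : ((m : ℤ) : ℚ_[2]).valuation = 1 := by
  obtain ⟨k, hk⟩ : ∃ k, m = 2 * k := ⟨m / 2, by omega⟩
  have hk2 : ¬ ((2 : ℕ) : ℤ) ∣ k := by push_cast; omega
  have hk0 : (k : ℚ_[2]) ≠ 0 := by
    have : k ≠ 0 := by omega
    exact_mod_cast this
  rw [hk]
  push_cast
  rw [Padic.valuation_mul (by norm_num) hk0, v_two, val_zero hk2]
  norm_num

/-- odd elements of `ℤ₂` have square `1 mod 8` -/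
lemma odd_sq {s : ℤ_[2]} (hs : ‖s‖ = 1) : PadicInt.toZModPow (p := 2) 3 (s ^ 2) = 1 := by
  have := unit_odd hs
  simp only [Set.mem_insert_iff, Set.mem_singleton_iff] at this
  rw [map_pow]
  have key : ∀ t : ZMod (2 ^ 3), (t = 1 ∨ t = 3 ∨ t = 5 ∨ t = 7) → t ^ 2 = 1 := by decide
  exact key _ this

/-- the residue of `m` -/
lemma m_mod42 {m : ℤ} (hm : m % 4 = 2) : PadicInt.toZModPow (p := 2) 3 (m : ℤ_[2]) = 2 ∨
    PadicInt.toZModPow (p := 2) 3 (m : ℤ_[2]) = 6 := by
  have h8 : m % 8 = 2 ∨ m % 8 = 6 := by omega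
  rcases h8 with h | h
  · left
    rw [map_intCast]
    have : ((8 : ℕ) : ℤ) ∣ m - 2 := by push_cast; omega
    have h2 := (ZMod.intCast_zmod_eq_zero_iff_dvd (m - 2) 8).2 this
    push_cast at h2
    exact sub_eq_zero.1 h2
  · right
    rw [map_intCast]
    have : ((8 : ℕ) : ℤ) ∣ m - 6 := by push_cast; omega
    have h2 := (ZMod.intCast_zmod_eq_zero_iff_dvd (m - 6) 8).2 this
    push_cast at h2
    exact sub_eq_zero.1 h2

/-- second coordinate trivial -/
theorem two_a {m : ℤ} (hm : m % 4 = 2) {u : ℚ_[2]} (hu : u ≠ 0) (hv : u - m ≠ 0)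
    (hw : u + 3 * m ≠ 0) (hs : IsSquare (u * (u - m) * (u + 3 * m))) (h : IsSquare (u - m)) :
    IsSquare u ∨ IsSquare (u * m) := by
  have hm0 : m ≠ 0 := by rintro rfl; simp at hm
  have hm' : (m : ℚ_[2]) ≠ 0 := by exact_mod_cast hm0
  obtain ⟨r, hr⟩ := h
  have hr0 : r ≠ 0 := by
    rintro rfl
    rw [mul_zero] at hr
    exact hv hr
  have hrr : r * r ≠ 0 := mul_ne_zero hr0 hr0
  have vrr : (r * r).valuation = 2 * r.valuation := by
    rw [Padic.valuation_mul hr0 hr0]; ring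
  have eu : u = r * r + m := by rw [← hr]; ring
  have ew : u + 3 * m = r * r + 4 * m := by rw [eu]; ring
  have hs2 : IsSquare (u * (u + 3 * m)) := by
    have e : u * (u - m) * (u + 3 * m) = (u - m) * (u * (u + 3 * m)) := by ring
    rw [e] at hs
    exact sq_cancel hv ⟨r, hr⟩ hs
  have vm := v_m hm
  have v4m : (4 * (m : ℚ_[2])).valuation = 3 := by
    have : (4 : ℚ_[2]) = 2 ^ 2 := by norm_num
    rw [this, Padic.valuation_mul (by norm_num) hm', vm, Padic.valuation_pow, v_two]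
    norm_num
  have n4 : (4 * (m : ℚ_[2])) ≠ 0 := mul_ne_zero (by norm_num) hm'
  have hev := even_val (mul_ne_zero hu hw) hs2
  rw [Padic.valuation_mul hu hw] at hev
  have c : r.valuation < 0 ∨ r.valuation = 0 ∨ r.valuation = 1 ∨ 2 ≤ r.valuation := by omega
  rcases c with c | c | c | c
  · -- `u ~ r²`
    left
    have h1 := (close2 hu hrr (by rw [eu, add_sub_cancel_left]; exact hm') (by
      rw [eu, add_sub_cancel_left, vm, vrr]; omega)).1
    rw [mul_comm] at h1
    exact sq_cancel hrr (IsSquare.mul_self r) h1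
  · -- `r` a unit
    exfalso
    obtain ⟨s, hs1, hs3⟩ := unit_part hr0
    rw [c, zpow_zero, one_mul] at hs3
    obtain ⟨y, hy⟩ := hs2
    obtain ⟨f1, f2, f3⟩ := key_sq ((s ^ 2 + m) * (s ^ 2 + 4 * m)) ⟨y, by
      push_cast
      have d4 : ((4 : ℤ_[2]) : ℚ_[2]) = 4 := rfl
      rw [d4, pow_two y, ← hy, ew, eu, hs3]
      ring⟩
    have c4 : PadicInt.toZModPow (p := 2) 3 4 = 4 := map_ofNat (PadicInt.toZModPow (p := 2) 3) 4
    rw [map_mul, map_add, map_add, map_mul, c4, odd_sq hs1] at f1 f2 f3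
    rcases m_mod42 hm with h8 | h8
    · rw [h8] at f1
      exact f1 (by decide)
    · rw [h8] at f3
      exact f3 (by decide)
  · -- `r = 2 r'`, `r'` a unit
    exfalso
    have e1 : u.valuation = 1 := by
      have := val_add_eq hm' hrr (by rw [add_comm, ← eu]; exact hu) (by rw [vm, vrr]; omega)
      rw [add_comm, ← eu, vm] at this
      exact this
    have e2 : (u + 3 * m).valuation = 2 := by
      have := val_add_eq hrr n4 (by rw [← ew]; exact hw) (by rw [v4m, vrr]; omega)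
      rw [← ew, vrr, c] at this
      omega
    rw [e1, e2] at hev
    exact absurd hev (by decide)
  · right
    have h1 := (close2 hu hm' (by rw [eu, add_sub_cancel_right]; exact hrr) (by
      rw [eu, add_sub_cancel_right, vm, vrr]; omega)).1
    exact h1

/-- second coordinate `-m` -/
theorem two_b {m : ℤ} (hm : m % 4 = 2) {u : ℚ_[2]} (hu : u ≠ 0) (hv : u - m ≠ 0)
    (hw : u + 3 * m ≠ 0) (hs : IsSquare (u * (u - m) * (u + 3 * m)))
    (h : IsSquare ((u - m) * (-m))) :
    IsSquare (u * (-3)) ∨ IsSquare (u * (-3 * m)) := by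
  have hm0 : m ≠ 0 := by rintro rfl; simp at hm
  have hm' : (m : ℚ_[2]) ≠ 0 := by exact_mod_cast hm0
  have hnm : -(m : ℚ_[2]) ≠ 0 := neg_ne_zero.2 hm'
  have vm := v_m hm
  obtain ⟨r', hr'⟩ := h
  -- `u = m (1 - r²)`
  obtain ⟨r, hr⟩ : ∃ r : ℚ_[2], r' = m * r := ⟨r' / m, by field_simp⟩
  rw [hr] at hr'
  have ev : u - m = -(m * (r * r)) := by
    have h1 : (m : ℚ_[2]) * (u - m + m * (r * r)) = 0 := by linear_combination -hr'
    rcases mul_eq_zero.1 h1 with h2 | h2
    · exact absurd h2 hm'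
    · linear_combination h2
  have eu : u = m * (1 - r * r) := by linear_combination ev
  have ew : u + 3 * m = m * (4 - r * r) := by rw [eu]; ring
  have hr0 : r ≠ 0 := by
    rintro rfl
    apply hv
    rw [ev]
    ring
  have hrr : r * r ≠ 0 := mul_ne_zero hr0 hr0
  have vrr : (r * r).valuation = 2 * r.valuation := by
    rw [Padic.valuation_mul hr0 hr0]; ring
  have n1 : 1 - r * r ≠ 0 := by
    intro h1
    rw [h1, mul_zero] at eu
    exact hu eu
  have n4 : 4 - r * r ≠ 0 := by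
    intro h1
    rw [h1, mul_zero] at ew
    exact hw ew
  have n14 : (1 - r * r) * (4 - r * r) ≠ 0 := mul_ne_zero n1 n4
  -- the main condition
  have hs2 : IsSquare (-(m : ℚ_[2]) * ((1 - r * r) * (4 - r * r))) := by
    have e : u * (u - m) * (u + 3 * m) =
        ((m * r) * (m * r)) * (-(m : ℚ_[2]) * ((1 - r * r) * (4 - r * r))) := by
      rw [ew, ev, eu]; ring
    rw [e] at hs
    exact sq_cancel (mul_ne_zero (mul_ne_zero hm' hr0) (mul_ne_zero hm' hr0))
      (IsSquare.mul_self _) hs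
  have hev := even_val (mul_ne_zero hnm n14) hs2
  rw [Padic.valuation_mul hnm n14, val_neg, vm, Padic.valuation_mul n1 n4] at hev
  have v1 : (1 : ℚ_[2]).valuation = 0 := Padic.valuation_one
  have v4 : (4 : ℚ_[2]).valuation = 2 := by
    have : (4 : ℚ_[2]) = 2 ^ 2 := by norm_num
    rw [this, Padic.valuation_pow, v_two]
    norm_num
  have hnr : -(r * r) ≠ 0 := neg_ne_zero.2 hrr
  have vnr : (-(r * r)).valuation = 2 * r.valuation := by rw [val_neg, vrr]
  have s1 : 1 - r * r = 1 + -(r * r) := by ring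
  have s4 : 4 - r * r = 4 + -(r * r) := by ring
  have c : r.valuation < 0 ∨ r.valuation = 0 ∨ r.valuation = 1 ∨ 2 ≤ r.valuation := by omega
  have c4' : PadicInt.toZModPow (p := 2) 3 4 = 4 := map_ofNat (PadicInt.toZModPow (p := 2) 3) 4
  have c3' : PadicInt.toZModPow (p := 2) 3 3 = 3 := map_ofNat (PadicInt.toZModPow (p := 2) 3) 3
  have d4 : ((4 : ℤ_[2]) : ℚ_[2]) = 4 := rfl
  have d3 : ((3 : ℤ_[2]) : ℚ_[2]) = 3 := rfl
  rcases c with c | c | c | c
  · exfalso
    have e1 : (1 - r * r).valuation = 2 * r.valuation := by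
      rw [s1, add_comm, val_add_eq hnr one_ne_zero (by rw [add_comm, ← s1]; exact n1)
        (by rw [vnr, v1]; omega), vnr]
    have e4 : (4 - r * r).valuation = 2 * r.valuation := by
      rw [s4, add_comm, val_add_eq hnr (by norm_num) (by rw [add_comm, ← s4]; exact n4)
        (by rw [vnr, v4]; omega), vnr]
    rw [e1, e4] at hev
    obtain ⟨k, hk⟩ := hev
    omega
  · -- `r` a unit: `3 (4 - r²)` is a square
    left
    obtain ⟨s, hs1, hs3⟩ := unit_part hr0
    rw [c, zpow_zero, one_mul] at hs3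
    have h1 : IsSquare (3 * (4 - r * r)) := by
      have h2 := sq_of_mod8 (3 * (4 - s ^ 2)) (by
        rw [map_mul, map_sub, c3', c4', odd_sq hs1]
        decide)
      push_cast at h2
      rw [d3, d4, ← hs3, pow_two] at h2
      exact h2
    have h2 := hs2.mul h1
    have e : -(m : ℚ_[2]) * ((1 - r * r) * (4 - r * r)) * (3 * (4 - r * r)) =
        ((4 - r * r) * (4 - r * r)) * (u * (-3)) := by rw [eu]; ring
    rw [e] at h2
    exact sq_cancel (mul_ne_zero n4 n4) (IsSquare.mul_self _) h2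
  · -- `r = 2 s`: `-3 (1 - r²)` is a square
    right
    obtain ⟨s, hs1, hs3⟩ := unit_part hr0
    rw [c, zpow_one] at hs3
    have h1 : IsSquare (-3 * (1 - r * r)) := by
      have h2 := sq_of_mod8 (-3 * (1 - 4 * s ^ 2)) (by
        rw [map_mul, map_sub, map_neg, map_mul, map_one, c3', c4', odd_sq hs1]
        decide)
      push_cast at h2
      rw [d3, d4] at h2
      rw [hs3]
      have e : -3 * (1 - 2 * (s : ℚ_[2]) * (2 * (s : ℚ_[2]))) = -3 * (1 - 4 * (s : ℚ_[2]) ^ 2) := by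
        ring
      rw [e]
      exact h2
    have e : u * (-3 * m) = (m * m) * (-3 * (1 - r * r)) := by rw [eu]; ring
    rw [e]
    exact (IsSquare.mul_self _).mul h1
  · exfalso
    have e1 : (1 - r * r).valuation = 0 := by
      rw [s1, val_add_eq one_ne_zero hnr (by rw [← s1]; exact n1)
        (by rw [vnr, v1]; omega), v1]
    have e4 : (4 - r * r).valuation = 2 := by
      rw [s4, val_add_eq (by norm_num) hnr (by rw [← s4]; exact n4)
        (by rw [vnr, v4]; omega), v4]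
    rw [e1, e4] at hev
    exact absurd hev (by decide)

end two

end Pool.Agent.N373.P24x
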