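import Pool.Agent.N373.P24x.Tam

/-!
# Minimality of `E_m : y² = x (x - m) (x + 3 m)`, `m` even, and the product of the Tamagawa numbers
-/

set_option autoImplicit false
set_option linter.style.haveILetI false

namespace Pool.Agent.N373.P24x

open Pool.Agent.N373.P24
open WeierstrassCurve
open Pool.Agent.Y700 (PtP SingRed E0 tam VR)
open Pool.Agent.W97.MT (IsGloballyMinimal)

theorem c4_Em (m : ℤ) : (Em m).c₄ = 16 * (13 * m ^ 2) := by
  simp only [Em, WeierstrassCurve.c₄, WeierstrassCurve.b₂, WeierstrassCurve.b₄]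
  ring

lemma odd_pow_mod {k : ℤ} (hk : k % 2 = 1) : k ^ 2 % 4 = 1 := by
  have h : k % 4 = 1 ∨ k % 4 = 3 := by omega
  rw [pow_two, Int.mul_emod]
  rcases h with h | h <;> rw [h] <;> norm_num

/-- no integral equation with these invariants -/
lemma no_eqn {m k : ℤ} (hm : m % 4 = 2) (hk : k % 2 = 1)
    (W : WeierstrassCurve ℤ) (e4 : W.c₄ = k ^ 4 * (13 * m ^ 2)) : False := by
  have hk2 := odd_pow_mod hk
  have hk4 : k ^ 4 % 4 = 1 := by
    have : k ^ 4 = k ^ 2 * k ^ 2 := by ring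
    rw [this, Int.mul_emod, hk2]; norm_num
  simp only [WeierstrassCurve.c₄, WeierstrassCurve.b₂, WeierstrassCurve.b₄] at e4
  obtain ⟨t, rfl⟩ : ∃ t, m = 2 * t := ⟨m / 2, by omega⟩
  have ht : t % 2 = 1 := by omega
  have ht2 := odd_pow_mod ht
  have r4 : k ^ 4 * (13 * (2 * t) ^ 2) = 4 * (13 * (k ^ 4 * t ^ 2)) := by ring
  have hkt : k ^ 4 * t ^ 2 % 4 = 1 := by rw [Int.mul_emod, hk4, ht2]; norm_num
  rw [r4] at e4
  rcases Int.emod_two_eq_zero_or_one W.a₁ with ha | ha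
  · obtain ⟨s, hs'⟩ : ∃ s, W.a₁ = 2 * s := ⟨W.a₁ / 2, by omega⟩
    rw [hs'] at e4
    have l4 : ((2 * s) ^ 2 + 4 * W.a₂) ^ 2 - 24 * (2 * W.a₄ + 2 * s * W.a₃) =
        16 * ((s ^ 2 + W.a₂) ^ 2 - 3 * (W.a₄ + s * W.a₃)) := by ring
    rw [l4] at e4
    omega
  · have h1 := odd_pow_mod ha
    have h2 : (W.a₁ ^ 2) ^ 2 % 4 = 1 := odd_pow_mod (by omega)
    have l4 : (W.a₁ ^ 2 + 4 * W.a₂) ^ 2 - 24 * (2 * W.a₄ + W.a₁ * W.a₃) =
        (W.a₁ ^ 2) ^ 2 + 4 * (2 * W.a₁ ^ 2 * W.a₂ + 4 * W.a₂ ^ 2 -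
          6 * (2 * W.a₄ + W.a₁ * W.a₃)) := by ring
    rw [l4] at e4
    omega

/-- prime powers dividing the discriminant -/
lemma pp {q : ℕ} (hq : q.Prime) {m : ℤ} (hs : Squarefree m) {N : ℕ}
    (h : ((q : ℤ)) ^ N ∣ 2 ^ 8 * 3 ^ 2 * m ^ 6) : (q = 2 → N ≤ 14) ∧ (q ≠ 2 → N ≤ 8) := by
  have : Fact q.Prime := ⟨hq⟩
  have hm0 : m ≠ 0 := hs.ne_zero
  have hne : ((2 : ℤ) ^ 8 * 3 ^ 2 * m ^ 6) ≠ 0 :=
    mul_ne_zero (by norm_num) (pow_ne_zero _ hm0)
  have h1 : N ≤ padicValInt q (2 ^ 8 * 3 ^ 2 * m ^ 6) := by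
    have := (padicValInt_dvd_iff (p := q) N (2 ^ 8 * 3 ^ 2 * m ^ 6)).1 h
    exact this.resolve_left hne
  have h2' : padicValInt q m ≤ 1 := by
    by_contra hcon
    push Not at hcon
    have h3 : (q : ℤ) ^ 2 ∣ m := (padicValInt_dvd_iff (p := q) 2 m).2 (Or.inr hcon)
    rw [pow_two] at h3
    have h4 := hs _ h3
    exact hq.one_lt.ne' (Nat.isUnit_iff.1 (Int.ofNat_isUnit.1 h4))
  have e1 : padicValInt q (2 ^ 8 * 3 ^ 2 * m ^ 6) =
      8 * padicValInt q 2 + 2 * padicValInt q 3 + 6 * padicValInt q m := by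
    rw [padicValInt.mul (by norm_num) (pow_ne_zero _ hm0), padicValInt.mul (by norm_num) (by norm_num)]
    have hp : ∀ (a : ℤ) (_ : a ≠ 0) (n : ℕ), padicValInt q (a ^ n) = n * padicValInt q a := by
      intro a ha n
      induction n with
      | zero => simp
      | succ n ih => rw [pow_succ, padicValInt.mul (pow_ne_zero _ ha) ha, ih]; ring
    rw [hp 2 (by norm_num), hp 3 (by norm_num), hp m hm0]
  have e2 : padicValInt q 2 = padicValNat q 2 := by
    rw [show (2 : ℤ) = ((2 : ℕ) : ℤ) by norm_num, padicValInt.of_nat]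
  have e3 : padicValInt q 3 = padicValNat q 3 := by
    rw [show (3 : ℤ) = ((3 : ℕ) : ℤ) by norm_num, padicValInt.of_nat]
  rw [e1, e2, e3] at h1
  constructor
  · rintro rfl
    rw [padicValNat_self, padicValNat.eq_zero_of_not_dvd (by norm_num : ¬ 2 ∣ 3)] at h1
    omega
  · intro hq2
    rw [padicValNat.eq_zero_of_not_dvd (n := 2) (fun h =>
      hq2 ((Nat.prime_dvd_prime_iff_eq hq Nat.prime_two).1 h))] at h1
    by_cases hq3 : q = 3
    · subst hq3
      rw [padicValNat_self] at h1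
      omega
    · rw [padicValNat.eq_zero_of_not_dvd (n := 3) (fun h =>
        hq3 ((Nat.prime_dvd_prime_iff_eq hq Nat.prime_three).1 h))] at h1
      omega

/-- **The equation is globally minimal**, `m` even. -/
theorem min_even {m : ℤ} (hm : m % 4 = 2) (hs : Squarefree m) : IsGloballyMinimal (Em m) := by
  have hΔ := Em_Δ m
  have hM0 : m ≠ 0 := hs.ne_zero
  refine ⟨?_, ?_⟩
  · rw [hΔ]
    exact mul_ne_zero (by norm_num) (pow_ne_zero _ hM0)
  · intro W' C h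
    have h1 := congrArg WeierstrassCurve.Δ h
    rw [WeierstrassCurve.variableChange_Δ, WeierstrassCurve.map_Δ, WeierstrassCurve.map_Δ] at h1
    have h1c := congrArg WeierstrassCurve.c₄ h
    rw [WeierstrassCurve.variableChange_c₄, WeierstrassCurve.map_c₄, WeierstrassCurve.map_c₄] at h1c
    simp only [eq_intCast] at h1 h1c
    obtain ⟨q, hq⟩ : ∃ q : ℚ, q = ((C.u⁻¹ : ℚˣ) : ℚ) := ⟨_, rfl⟩
    rw [← hq] at h1 h1c
    have hq0 : q ≠ 0 := by rw [hq]; exact Units.ne_zero _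
    have hnd : q * q.den = q.num := Rat.mul_den_eq_num q
    have h2 : (q.num : ℚ) ^ 12 * ((Em m).Δ : ℚ) = (W'.Δ : ℚ) * (q.den : ℚ) ^ 12 := by
      rw [← h1, ← hnd]
      ring
    have h2c : (q.num : ℚ) ^ 4 * ((Em m).c₄ : ℚ) = (W'.c₄ : ℚ) * (q.den : ℚ) ^ 4 := by
      rw [← h1c, ← hnd]
      ring
    have h3 : q.num ^ 12 * (Em m).Δ = W'.Δ * (q.den : ℤ) ^ 12 := by exact_mod_cast h2
    have h3c : q.num ^ 4 * (Em m).c₄ = W'.c₄ * (q.den : ℤ) ^ 4 := by exact_mod_cast h2c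
    have hcop0 : IsCoprime ((q.den : ℤ)) (q.num) := by
      rw [Int.isCoprime_iff_gcd_eq_one, Int.gcd_comm]
      exact q.reduced
    have hcop : IsCoprime ((q.den : ℤ) ^ 12) (q.num ^ 12) := IsCoprime.pow hcop0
    have h5 : (q.den : ℤ) ^ 12 ∣ (Em m).Δ :=
      hcop.dvd_of_dvd_mul_left ⟨W'.Δ, by rw [h3]; ring⟩
    rw [hΔ] at h5
    -- odd prime factors
    have hodd : ∀ r : ℕ, r.Prime → r ≠ 2 → ¬ r ∣ q.den := by
      intro r hr hr2 hrd
      have h6 : ((r : ℤ)) ^ 12 ∣ 2 ^ 8 * 3 ^ 2 * m ^ 6 :=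
        (pow_dvd_pow_of_dvd (by exact_mod_cast hrd) 12).trans h5
      have := (pp hr hs h6).2 hr2
      omega
    have h4d : ¬ 4 ∣ q.den := by
      intro h
      have h6 : ((4 : ℤ)) ^ 12 ∣ 2 ^ 8 * 3 ^ 2 * m ^ 6 :=
        (pow_dvd_pow_of_dvd (by exact_mod_cast h) 12).trans h5
      have e4 : (4 : ℤ) ^ 12 = ((2 : ℕ) : ℤ) ^ 24 := by norm_num
      rw [e4] at h6
      have := (pp Nat.prime_two hs h6).1 rfl
      omega
    have h8 : q.den = 1 := by
      by_contra hne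
      have h2d' : 2 ∣ q.den := by
        obtain ⟨r, hr, hrd⟩ := Nat.exists_prime_and_dvd hne
        by_cases hr2 : r = 2
        · rwa [hr2] at hrd
        · exact absurd hrd (hodd r hr hr2)
      obtain ⟨e, he⟩ := h2d'
      have he1 : e = 1 := by
        by_contra hne1
        obtain ⟨r, hr, hrd⟩ := Nat.exists_prime_and_dvd hne1
        by_cases hr2 : r = 2
        · apply h4d
          obtain ⟨f, hf⟩ := hrd
          exact ⟨f, by rw [he, hf, hr2]; ring⟩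
        · exact hodd r hr hr2 (by rw [he]; exact hrd.mul_left 2)
      have hd2 : q.den = 2 := by rw [he, he1]
      have hno : q.num % 2 = 1 := by
        by_contra hcon
        have h9 : (2 : ℤ) ∣ q.num := by omega
        have h10 : (2 : ℤ) ∣ (q.den : ℤ) := by rw [hd2]; norm_num
        have h11 := hcop0.isUnit_of_dvd' h10 h9
        rw [Int.isUnit_iff] at h11
        omega
      refine no_eqn hm hno W' ?_
      rw [hd2, c4_Em] at h3c
      push_cast at h3c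
      linarith
    rw [h8] at h3
    have h9 : W'.Δ = q.num ^ 12 * (Em m).Δ := by rw [h3]; simp
    rw [h9, abs_mul]
    have h10 : 1 ≤ |q.num ^ 12| := by
      apply Int.one_le_abs
      exact pow_ne_zero _ (Rat.num_ne_zero.2 hq0)
    nlinarith [abs_nonneg (Em m).Δ]

end Pool.Agent.N373.P24x
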