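import Pool.Agent.N373.P24x.Loc

/-!
# The 2-Selmer group of `y² = x (x - m) (x + 3 m)`: upper bound, the other classes
-/

set_option autoImplicit false

namespace Pool.Agent.N373.P24x

open Pool.Agent.N373.P24
open Pool.Agent.TH841.SH (LocC SelG)
open Pool.Agent.N875.X15 (sq_cancel sq_trans not_dvd_of_even Ram RC NC val_zero even_val to_coord)

/-- the condition at `2` -/
lemma loc_twoX {m d1 d2 : ℤ} (hm : m % 4 = 2) (h : LocC ℚ_[2] 0 m (-3 * m) d1 d2) :
    (d2 = 1 → IsSquare (d1 : ℚ_[2]) ∨ IsSquare ((d1 : ℚ_[2]) * m)) ∧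
    (d2 = -m → IsSquare ((d1 : ℚ_[2]) * (-3)) ∨ IsSquare ((d1 : ℚ_[2]) * (-3 * m))) := by
  obtain ⟨u, hu, hv, hw, hs, h1, h2⟩ := locC_iff h
  constructor
  · rintro rfl
    rw [Int.cast_one, mul_one] at h2
    rcases two_a hm hu hv hw hs h2 with h3 | h3
    · left
      exact sq_cancel hu h3 h1
    · exact Or.inr (to_coord hu h3 h1)
  · rintro rfl
    push_cast at h2
    rcases two_b hm hu hv hw hs h2 with h3 | h3
    · exact Or.inl (to_coord hu h3 h1)
    · exact Or.inr (to_coord hu h3 h1)

/-- the last element -/
def DD (m : ℤ) : ℤ := if m % 3 = 0 then -(m / 3) else -3 * m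

/-- **The 2-Selmer group.** -/
theorem sel_sub {m : ℤ} (hm : ClsX m) (hR : RC m) (hN : NC m) {d1 d2 : ℤ}
    (h : (d1, d2) ∈ SelG 0 m (-3 * m)) :
    (d1, d2) ∈ ({(1, 1), (m, 1), (-3, -m), (DD m, -m)} : Set (ℤ × ℤ)) := by
  obtain ⟨s1, s2, hR', hp⟩ := h
  simp only at s1 s2 hR' hp
  have hm0 : m ≠ 0 := hm.ne
  have hsg := loc_sign hm.neg s2.ne_zero hR'
  -- the support of the coordinates
  have supp : ∀ p : ℕ, p.Prime → p ≠ 2 → p ≠ 3 → ¬ (p : ℤ) ∣ m →
      ¬ (p : ℤ) ∣ d1 ∧ ¬ (p : ℤ) ∣ d2 := by
    intro p hpp hp2 hp3 hpm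
    have : Fact p.Prime := ⟨hpp⟩
    exact loc_ndvd hp2 hp3 hm0 hpm s1 s2 (hp p)
  have ram2 : ∀ p : ℕ, p = 2 → m % 4 = 2 → Ram m p := by
    rintro p rfl h4
    left
    push_cast
    omega
  have t1 : m % 8 = 5 → d1 % 4 = 1 ∧ ¬ (2 : ℤ) ∣ d2 := fun h8 => loc_two' h8 s1 s2 (hp 2)
  have t3 : m % 3 = 1 → ¬ (3 : ℤ) ∣ d2 ∧ (d2 % 3 = 1 ∧ ¬ (3 : ℤ) ∣ d1 ∨
      d2 % 3 = 2 ∧ (3 : ℤ) ∣ d1) := fun h3 => loc_three' h3 s1 s2 (hp 3)
  have r3 : m % 3 = 0 → Ram m 3 := by
    intro h3
    left
    push_cast
    omega
  -- `p ∣ m`, `p` odd: `± m` is not a square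
  have h9 : ∀ (p : ℕ) [Fact p.Prime], (p : ℤ) ∣ m → ¬ IsSquare (((-m : ℤ)) : ℚ_[p]) := by
    intro p _ hpm hsq
    have h1 : IsSquare ((1 : ℚ_[p]) * ((-m : ℤ))) := by rwa [one_mul]
    exact not_dvd_of_even one_ne_zero (by rw [Padic.valuation_one]; exact Even.zero)
      (fun x hx => hm.sqf x (by rwa [dvd_neg] at hx)) h1 (by rwa [dvd_neg])
  -- the second coordinate
  have hd2 : d2 = 1 ∨ d2 = -m := by
    refine hN d2 hsg s2 (fun p hpp hpd => ?_) ?_
    · by_contra hram
      have hpm : ¬ (p : ℤ) ∣ m := fun h => hram (Or.inl h)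
      by_cases hp2 : p = 2
      · rcases hm.m2 with h8 | h4
        · subst hp2
          exact (t1 h8).2 (by exact_mod_cast hpd)
        · exact hram (ram2 p hp2 h4)
      by_cases hp3 : p = 3
      · subst hp3
        rcases hm.m3 with h0 | h0
        · exact hram (r3 h0)
        · exact (t3 h0).1 (by exact_mod_cast hpd)
      exact (supp p hpp hp2 hp3 hpm).2 hpd
    · intro p hpp hp2 hpm
      rcases loc_opt p hp2 hm.sqf hpm (hp p) with h | h | h | h
      · exact Or.inl h.2
      · exact Or.inr h.2
      · exact Or.inl h.2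
      · exact Or.inr h.2
  -- the ramified primes
  have ramc : ∀ p : ℕ, p.Prime → Ram m p → (p ≠ 2 ∧ (p : ℤ) ∣ m) ∨ (p = 2 ∧ m % 4 = 2) := by
    intro p hpp hr
    rcases hr with h | ⟨h, h'⟩
    · by_cases hp2 : p = 2
      · right
        refine ⟨hp2, ?_⟩
        rcases hm.m2 with h8 | h4
        · exfalso
          subst hp2
          push_cast at h
          omega
        · exact h4
      · exact Or.inl ⟨hp2, h⟩
    · right
      refine ⟨h, ?_⟩
      rcases hm.m2 with h8 | h4
      · omega
      · exact h4
  rcases hd2 with rfl | rfl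
  · -- `d2 = 1`
    have h1 : d1 = 1 ∨ d1 = m := by
      refine hR d1 s1 (fun p hpp hpd => ?_) (fun h4 => ?_) ?_
      · by_contra hram
        have hpm : ¬ (p : ℤ) ∣ m := fun h => hram (Or.inl h)
        by_cases hp2 : p = 2
        · rcases hm.m2 with h8 | h4
          · subst hp2
            have h5 := (t1 h8).1
            push_cast at hpd
            omega
          · exact hram (ram2 p hp2 h4)
        by_cases hp3 : p = 3
        · subst hp3
          rcases hm.m3 with h0 | h0
          · exact hram (r3 h0)
          · rcases (t3 h0).2 with h | h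
            · exact h.2 (by exact_mod_cast hpd)
            · exact absurd h.1 (by norm_num)
        exact (supp p hpp hp2 hp3 hpm).1 hpd
      · rcases hm.m2 with h8 | h5
        · exact (t1 h8).1
        · omega
      · intro p hpp hram
        rcases ramc p hpp.out hram with ⟨hp2, hpm⟩ | ⟨hp2, h4⟩
        · have e1 : ((1 : ℤ) : ℚ_[p]) * (-m) = ((-m : ℤ) : ℚ_[p]) := by push_cast; ring
          rcases loc_opt p hp2 hm.sqf hpm (hp p) with h | h | h | h
          · exact Or.inl h.1
          · rw [e1] at h
            exact absurd h.2 (h9 p hpm)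
          · exact Or.inr h.1
          · rw [e1] at h
            exact absurd h.2 (h9 p hpm)
        · subst hp2
          exact (loc_twoX h4 (hp 2)).1 rfl
    rcases h1 with rfl | rfl <;> simp
  · -- `d2 = -m`
    -- the local conditions for `-3 d1`
    have hl : ∀ (p : ℕ) [Fact p.Prime], Ram m p → IsSquare ((d1 : ℚ_[p]) * (-3)) ∨
        IsSquare ((d1 : ℚ_[p]) * (-3 * m)) := by
      intro p hpp hram
      rcases ramc p hpp.out hram with ⟨hp2, hpm⟩ | ⟨hp2, h4⟩
      · rcases loc_opt p hp2 hm.sqf hpm (hp p) with h | h | h | h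
        · exact absurd h.2 (h9 p hpm)
        · exact Or.inl h.1
        · exact absurd h.2 (h9 p hpm)
        · exact Or.inr h.1
      · subst hp2
        exact (loc_twoX h4 (hp 2)).2 rfl
    by_cases hd3 : (3 : ℤ) ∣ d1
    · obtain ⟨e, he⟩ : ∃ e : ℤ, d1 = -3 * e := by
        obtain ⟨k, hk⟩ := hd3
        exact ⟨-k, by rw [hk]; ring⟩
      subst he
      have se : Squarefree e := s1.squarefree_of_dvd ⟨-3, by ring⟩
      have he3 : ¬ (3 : ℤ) ∣ e := by
        rintro ⟨k, rfl⟩
        have h1 := s1 3 ⟨-k, by ring⟩
        rw [Int.isUnit_iff] at h1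
        omega
      have h1 : e = 1 ∨ e = m := by
        refine hR e se (fun p hpp hpd => ?_) (fun h4 => ?_) ?_
        · by_contra hram
          have hpm : ¬ (p : ℤ) ∣ m := fun h => hram (Or.inl h)
          by_cases hp2 : p = 2
          · rcases hm.m2 with h8 | h4
            · subst hp2
              have h5 := (t1 h8).1
              push_cast at hpd
              omega
            · exact hram (ram2 p hp2 h4)
          by_cases hp3 : p = 3
          · subst hp3
            exact he3 (by exact_mod_cast hpd)
          exact (supp p hpp hp2 hp3 hpm).1 (hpd.mul_left _)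
        · rcases hm.m2 with h8 | h5
          · have := (t1 h8).1
            omega
          · omega
        · intro p hpp hram
          have h10 : ∀ x : ℚ_[p], IsSquare ((9 : ℚ_[p]) * x) → IsSquare x := fun x hx =>
            sq_cancel (by norm_num) ⟨3, by norm_num⟩ hx
          rcases hl p hram with h | h
          · left
            apply h10
            push_cast at h
            have e' : (9 : ℚ_[p]) * e = -3 * e * -3 := by ring
            rwa [e']
          · right
            apply h10
            push_cast at h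
            have e' : (9 : ℚ_[p]) * (e * m) = -3 * e * (-3 * m) := by ring
            rwa [e']
      rcases h1 with h1 | h1
      · rw [h1]
        simp
      · have h0 : ¬ m % 3 = 0 := by
          intro h0
          exact he3 (by omega)
        have : DD m = -3 * m := by unfold DD; rw [if_neg h0]
        rw [this, h1]
        simp
    · -- `3 ∤ d1`
      have h30 : m % 3 = 0 := by
        rcases hm.m3 with h0 | h0
        · exact h0
        · exfalso
          rcases (t3 h0).2 with h | h
          · have := h.1
            omega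
          · exact hd3 h.2
      have se : Squarefree (-3 * d1) := by
        have h1 : IsCoprime (-3 : ℤ) d1 := by
          have h2 : IsCoprime (3 : ℤ) d1 := (Int.prime_three.coprime_iff_not_dvd).2 hd3
          exact h2.neg_left
        exact squarefree_mul_iff.2 ⟨h1.isRelPrime, by
          rw [← Int.squarefree_natAbs]
          exact Nat.prime_three.squarefree, s1⟩
      have h1 : -3 * d1 = 1 ∨ -3 * d1 = m := by
        refine hR _ se (fun p hpp hpd => ?_) (fun h4 => ?_) ?_
        · by_contra hram
          have hpm : ¬ (p : ℤ) ∣ m := fun h => hram (Or.inl h)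
          by_cases hp2 : p = 2
          · rcases hm.m2 with h8 | h4
            · subst hp2
              have h5 := (t1 h8).1
              push_cast at hpd
              omega
            · exact hram (ram2 p hp2 h4)
          by_cases hp3 : p = 3
          · subst hp3
            exact hram (r3 h30)
          · rcases (Nat.prime_iff_prime_int.1 hpp).dvd_or_dvd hpd with h5 | h5
            · rw [dvd_neg] at h5
              exact hp3 ((Nat.prime_dvd_prime_iff_eq hpp Nat.prime_three).1 (by exact_mod_cast h5))
            · exact (supp p hpp hp2 hp3 hpm).1 h5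
        · rcases hm.m2 with h8 | h5
          · have := (t1 h8).1
            omega
          · omega
        · intro p hpp hram
          rcases hl p hram with h | h
          · left
            push_cast
            have e' : (-3 : ℚ_[p]) * d1 = d1 * -3 := by ring
            rwa [e']
          · right
            push_cast
            have e' : (-3 : ℚ_[p]) * d1 * m = d1 * (-3 * m) := by ring
            rwa [e']
      have e3 : DD m = -(m / 3) := by unfold DD; rw [if_pos h30]
      rw [e3]
      rcases h1 with h1 | h1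
      · exfalso
        omega
      · have : d1 = -(m / 3) := by omega
        rw [this]
        simp

theorem sel_finite {m : ℤ} (hm : ClsX m) (hR : RC m) (hN : NC m) :
    (SelG 0 m (-3 * m)).Finite ∧ (SelG 0 m (-3 * m)).ncard ≤ 4 := by
  have hsub : SelG 0 m (-3 * m) ⊆
      ((({(1, 1), (m, 1), (-3, -m), (DD m, -m)} : Finset (ℤ × ℤ))) : Set (ℤ × ℤ)) := by
    rintro ⟨d1, d2⟩ h
    have := sel_sub hm hR hN h
    simpa using this
  refine ⟨(Finset.finite_toSet _).subset hsub, ?_⟩
  refine (Set.ncard_le_ncard hsub (Finset.finite_toSet _)).trans ?_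
  rw [Set.ncard_coe_finset]
  exact Finset.card_le_four

end Pool.Agent.N373.P24x
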