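import Pool.Agent.N373.P24.Forms
import Pool.Agent.N875.X15.Tam2

/-!
# Tamagawa numbers of `E_m : y² = x (x - m) (x + 3 m)`: `3 ∣ m` and `m` even
-/

set_option autoImplicit false

namespace Pool.Agent.N373.P24x

open Pool.Agent.N373.P24
open WeierstrassCurve
open Pool.Agent.TH841.SH (IsR)
open Pool.Agent.Y700 (PtP SingRed E0 tam VR)
open Pool.Agent.Y809.BSD14 (index_of t_E0)
open Pool.Agent.N875.X15 (isR_eqn add_T two_tor dbl_T val_ram normlt_iff normle_iff norm_add_lt
  norm_sub_lt norm_mul_lt norm_mul_lt' norm_int norm_two norm_sq_lt norm_lt_of_dvd not_norm_lt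
  norm_le_iff norm_lt_iff norm_eq_iff val_zero val_one val_p val_mul_unit not_dvd_of_prime
  even_val val_add_eq add_same)

open scoped Classical

section

variable {p : ℕ} [hp : Fact p.Prime] {m : ℤ}

lemma shiftX (hsing : ∀ x y, ((Em m).map (Int.castRingHom ℚ_[p])).toAffine.Nonsingular x y →
      (SingRed (Em m) p x y ↔ ‖x‖ < 1)) {a b c : ℚ_[p]}
    (h : IsR ((Em m).map (Int.castRingHom ℚ_[p])) a b c) (ha : ‖a‖ < 1) {x y : ℚ_[p]}
    (hP : ((Em m).map (Int.castRingHom ℚ_[p])).toAffine.Nonsingular x y)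
    (hT : ((Em m).map (Int.castRingHom ℚ_[p])).toAffine.Nonsingular a 0) (hx : x ≠ a)
    (hv : ‖x - a‖ ≤ ‖(a - b) * (a - c)‖) :
    (Affine.Point.some x y hP + Affine.Point.some a 0 hT : PtP (Em m) p) ∈ E0 (Em m) p := by
  obtain ⟨X, Y, H, e, hX⟩ := add_T h hP hT hx
  rw [e, t_E0]
  intro x' y' h' he hs
  injection he with e1 e2
  subst e1
  subst e2
  rw [hsing _ _ h'] at hs
  have h1 : 1 ≤ ‖X - a‖ := by
    rw [hX, norm_div, one_le_div (norm_pos_iff.2 (sub_ne_zero.2 hx))]
    exact hv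
  have h2 := norm_sub_lt hs ha
  linarith

/-- **A Tamagawa number four.** -/
theorem tam_eq_four (hm0 : m ≠ 0) (hm1 : ‖(m : ℚ_[p])‖ < 1)
    (hsing : ∀ x y, ((Em m).map (Int.castRingHom ℚ_[p])).toAffine.Nonsingular x y →
      (SingRed (Em m) p x y ↔ ‖x‖ < 1))
    (key : ∀ x : ℚ_[p], x ≠ 0 → x - m ≠ 0 → x + 3 * m ≠ 0 →
      IsSquare (x * (x - m) * (x + 3 * m)) → 0 < x.valuation →
      (m : ℚ_[p]).valuation + (3 * (m : ℚ_[p])).valuation ≤ x.valuation ∨
      (4 * (m : ℚ_[p])).valuation + (m : ℚ_[p]).valuation ≤ (x - m).valuation ∨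
      (3 * (m : ℚ_[p])).valuation + (4 * (m : ℚ_[p])).valuation ≤ (x + 3 * m).valuation) :
    tam (Em m) p = 4 := by
  have hm' : (m : ℚ_[p]) ≠ 0 := by exact_mod_cast hm0
  have hR := isRp p m
  have n3 : (3 * (m : ℚ_[p])) ≠ 0 := mul_ne_zero (by norm_num) hm'
  have n4 : (4 * (m : ℚ_[p])) ≠ 0 := mul_ne_zero (by norm_num) hm'
  have r0 : rp (p := p) hm0 0 = 0 := rfl
  have r1 : rp (p := p) hm0 1 = Tp hm0 (Or.inl rfl) := rfl
  have r2 : rp (p := p) hm0 2 = Tp hm0 (Or.inr (Or.inl rfl)) := rfl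
  have r3 : rp (p := p) hm0 3 = Tp hm0 (Or.inr (Or.inr rfl)) := rfl
  have nrm : ∀ k : ℤ, ‖(k : ℚ_[p]) * m‖ < 1 := fun k => norm_mul_lt' (norm_int k) hm1
  refine index_of (E0 (Em m) p) (rp (p := p) hm0) (rp_dbl hm0) ?_ ?_
  · intro P
    rcases P with _ | ⟨x, y, h⟩
    · exact ⟨0, by rw [r0]; exact (E0 (Em m) p).zero_mem⟩
    by_cases hx1 : ‖x‖ < 1
    swap
    · refine ⟨0, ?_⟩
      rw [r0, add_zero, t_E0]
      intro x' y' h' he hs
      injection he with e1 e2
      subst e1
      subst e2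
      exact hx1 ((hsing _ _ h').1 hs)
    have hE := eqnp h
    by_cases hy : y = 0
    · subst hy
      have h3 : x = 0 ∨ x = m ∨ x = -3 * m := by
        have h4 : x * (x - m) * (x + 3 * m) = 0 := by rw [← hE]; ring
        rcases mul_eq_zero.1 h4 with h5 | h5
        · rcases mul_eq_zero.1 h5 with h6 | h6
          · exact Or.inl h6
          · exact Or.inr (Or.inl (by linear_combination h6))
        · exact Or.inr (Or.inr (by linear_combination h5))
      have hz : (Affine.Point.some x 0 h : PtP (Em m) p) + Affine.Point.some x 0 h = 0 := dbl_T hR h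
      rcases h3 with rfl | rfl | rfl
      · exact ⟨1, by rw [r1]; unfold Tp; rw [hz]; exact (E0 (Em m) p).zero_mem⟩
      · exact ⟨2, by rw [r2]; unfold Tp; rw [hz]; exact (E0 (Em m) p).zero_mem⟩
      · exact ⟨3, by rw [r3]; unfold Tp; rw [hz]; exact (E0 (Em m) p).zero_mem⟩
    · have h0 : x * (x - m) * (x + 3 * m) ≠ 0 := by
        rw [← hE]; exact pow_ne_zero 2 hy
      have hu : x ≠ 0 := left_ne_zero_of_mul (left_ne_zero_of_mul h0)
      have hv : x - m ≠ 0 := right_ne_zero_of_mul (left_ne_zero_of_mul h0)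
      have hw : x + 3 * m ≠ 0 := right_ne_zero_of_mul h0
      have hs : IsSquare (x * (x - m) * (x + 3 * m)) := ⟨y, by rw [← hE, pow_two]⟩
      have hvx : 0 < x.valuation := (normlt_iff hu).1 hx1
      rcases key x hu hv hw hs hvx with c | c | c
      · refine ⟨1, ?_⟩
        rw [r1]
        refine shiftX hsing hR (by rw [norm_zero]; exact one_pos) h _ hu ?_
        have e : (0 - (m : ℚ_[p])) * (0 - -3 * m) = -(m * (3 * m)) := by ring
        rw [e, sub_zero, norm_neg, norm_le_iff hu (mul_ne_zero hm' n3),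
          Padic.valuation_mul hm' n3]
        exact c
      · refine ⟨2, ?_⟩
        rw [r2]
        refine shiftX hsing hR.rot hm1 h _ ?_ ?_
        · intro hx
          apply hv
          rw [hx]; ring
        · have e : ((m : ℚ_[p]) - -3 * m) * (m - 0) = (4 * m) * m := by ring
          rw [e, norm_le_iff hv (mul_ne_zero n4 hm'), Padic.valuation_mul n4 hm']
          exact c
      · refine ⟨3, ?_⟩
        rw [r3]
        refine shiftX hsing hR.rot.rot ?_ h _ ?_ ?_
        · have := nrm (-3)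
          push_cast at this
          exact this
        · intro hx
          apply hw
          rw [hx]; ring
        · have e : (-3 * (m : ℚ_[p]) - 0) * (-3 * m - m) = (3 * m) * (4 * m) := by ring
          have e' : x - -3 * (m : ℚ_[p]) = x + 3 * m := by ring
          rw [e, e', norm_le_iff hw (mul_ne_zero n3 n4), Padic.valuation_mul n3 n4]
          exact c
  · intro i j hij
    by_contra hne
    have h1 : rp (p := p) hm0 i + rp hm0 j ≠ 0 := by
      intro h
      apply hne
      apply rp_inj (p := p) hm0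
      have h2 := rp_dbl (p := p) hm0 j
      have h3 : rp (p := p) hm0 i = -rp hm0 j := eq_neg_of_add_eq_zero_left h
      have h4 : rp (p := p) hm0 j = -rp hm0 j := eq_neg_of_add_eq_zero_left h2
      rw [h3, ← h4]
    have h2 : (rp (p := p) hm0 i + rp hm0 j) + (rp hm0 i + rp hm0 j) = 0 := by
      have e1 := rp_dbl (p := p) hm0 i
      have e2 := rp_dbl (p := p) hm0 j
      have e : (rp (p := p) hm0 i + rp hm0 j) + (rp hm0 i + rp hm0 j) =
        (rp hm0 i + rp hm0 i) + (rp hm0 j + rp hm0 j) := by abel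
      rw [e, e1, e2, add_zero]
    obtain ⟨x, hx, hP, hxx⟩ := two_tor hR two_ne_zero h2 h1
    rw [hP] at hij
    have hij' := (t_E0 (W := Em m) (p := p) _).1 hij
    refine hij' x 0 hx rfl ?_
    rw [hsing _ _ hx]
    rcases hxx with rfl | rfl | rfl
    · rw [norm_zero]; exact one_pos
    · exact hm1
    · have e := nrm (-3)
      push_cast at e
      exact e

end

/-- **The Tamagawa number at `3`, `3 ∣ m`.** -/
theorem tam_three_ram {m : ℤ} (hm : Squarefree m) (h3 : (3 : ℤ) ∣ m) : tam (Em m) 3 = 4 := by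
  have hm0 : m ≠ 0 := hm.ne_zero
  have hm' : (m : ℚ_[3]) ≠ 0 := by exact_mod_cast hm0
  have hpm : ((3 : ℕ) : ℤ) ∣ m := by exact_mod_cast h3
  have hm1 : ‖(m : ℚ_[3])‖ < 1 := (Padic.norm_intCast_lt_one_iff).2 hpm
  have vm : (m : ℚ_[3]).valuation = 1 := val_one hpm hm
  have v4 : (4 * (m : ℚ_[3])).valuation = 1 := by
    have := val_mul_unit (p := 3) (n := m) 4 (by norm_num) hm0
    push_cast at this
    rw [this, vm]
  have v3 : (3 * (m : ℚ_[3])).valuation = 2 := by
    rw [Padic.valuation_mul (by norm_num) hm', vm]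
    have : (3 : ℚ_[3]) = ((3 : ℕ) : ℚ_[3]) := by norm_num
    rw [this, Padic.valuation_p]
    norm_num
  have n3 : (3 * (m : ℚ_[3])) ≠ 0 := mul_ne_zero (by norm_num) hm'
  refine tam_eq_four hm0 hm1 (fun x y h => sing_ram (by norm_num) hpm h) ?_
  intro x hu hv hw hs hvx
  rw [vm, v3, v4]
  have E1 : x + 3 * (m : ℚ_[3]) - x = 3 * m := by ring
  have E2 : x - (m : ℚ_[3]) - x = -m := by ring
  have hs' : IsSquare (x * (x + 3 * m) * (x - (m : ℚ_[3]))) := by
    have e : x * (x + 3 * m) * (x - (m : ℚ_[3])) = x * (x - m) * (x + 3 * m) := by ring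
    rwa [e]
  have := val_ram (by norm_num) (u := x) (v := x + 3 * (m : ℚ_[3])) (w := x - m) hu hw hv hs'
    (by rw [E1]; exact n3) (l := 2) (k := 1) (by rw [E1, v3])
    (by rw [E2, val_neg, vm]) (by norm_num) (by decide)
  rcases this with c | c | c | c
  · exfalso
    omega
  · left; omega
  · right; right; omega
  · right; left; omega

section two

variable {m : ℤ}

/-- the reduction at 2 -/
lemma sing_two (h2 : (2 : ℤ) ∣ m) {x y : ℚ_[2]}
    (h : ((Em m).map (Int.castRingHom ℚ_[2])).toAffine.Nonsingular x y) :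
    SingRed (Em m) 2 x y ↔ ‖x‖ < 1 := by
  have e := eqnp h
  have h2' : ‖(2 : ℚ_[2])‖ < 1 := by
    have := norm_lt_of_dvd (p := 2) (k := 2) ⟨1, by norm_num⟩
    exact_mod_cast this
  have hm1 : ‖(m : ℚ_[2])‖ < 1 := (Padic.norm_intCast_lt_one_iff).2 (by exact_mod_cast h2)
  rw [sing_def]
  constructor
  · rintro ⟨h1, -, h3, -⟩
    have h5 : ‖x ^ 2‖ < 1 := by
      have e2 : x ^ 2 = (x * (x - m) + x * (x + 3 * m) + (x - m) * (x + 3 * m)) +
          (2 * -(x * x) + m * (((-4 : ℤ) : ℚ_[2]) * x + ((3 : ℤ) : ℚ_[2]) * m)) := by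
        push_cast; ring
      rw [e2]
      refine norm_add_lt h3 (norm_add_lt (norm_mul_lt h2' ?_) (norm_mul_lt hm1 ?_))
      · rw [norm_neg, norm_mul]
        exact mul_le_one₀ h1 (norm_nonneg _) h1
      · refine (Padic.nonarchimedean _ _).trans (max_le ?_ ?_)
        · rw [norm_mul]
          exact mul_le_one₀ (norm_int _) (norm_nonneg _) h1
        · rw [norm_mul]
          exact mul_le_one₀ (norm_int _) (norm_nonneg _) hm1.le
    exact norm_sq_lt h5
  · intro hx
    have b1 : ‖x - m‖ < 1 := norm_sub_lt hx hm1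
    have b2 : ‖x + 3 * m‖ < 1 := by
      refine norm_add_lt hx ?_
      have := norm_mul_lt' (norm_int (p := 2) 3) hm1
      push_cast at this
      exact this
    have hy : ‖y‖ < 1 := by
      apply norm_sq_lt
      rw [e]
      exact norm_mul_lt (norm_mul_lt hx b1.le) b2.le
    exact ⟨hx.le, hy.le, norm_add_lt (norm_add_lt (norm_mul_lt hx b1.le) (norm_mul_lt hx b2.le))
      (norm_mul_lt b1 b2.le), norm_mul_lt h2' hy.le⟩

/-- **The Tamagawa number at `2`, `m` even.** -/
theorem tam_two_even (hm : Squarefree m) (h2 : (2 : ℤ) ∣ m) : tam (Em m) 2 = 4 := by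
  have hm0 : m ≠ 0 := hm.ne_zero
  have hm' : (m : ℚ_[2]) ≠ 0 := by exact_mod_cast hm0
  have hpm : ((2 : ℕ) : ℤ) ∣ m := by exact_mod_cast h2
  have hm1 : ‖(m : ℚ_[2])‖ < 1 := (Padic.norm_intCast_lt_one_iff).2 hpm
  have vm : (m : ℚ_[2]).valuation = 1 := val_one hpm hm
  have v4 : (4 * (m : ℚ_[2])).valuation = 3 := by
    have : (4 : ℚ_[2]) = 2 ^ 2 := by norm_num
    have v2 : ((2 : ℚ_[2])).valuation = 1 := by
      have : (2 : ℚ_[2]) = ((2 : ℕ) : ℚ_[2]) := by norm_num
      rw [this, Padic.valuation_p]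
    rw [this, Padic.valuation_mul (by norm_num) hm', vm, Padic.valuation_pow, v2]
    norm_num
  have v3 : (3 * (m : ℚ_[2])).valuation = 1 := by
    have := val_mul_unit (p := 2) (n := m) 3 (by norm_num) hm0
    push_cast at this
    rw [this, vm]
  have n3 : (3 * (m : ℚ_[2])) ≠ 0 := mul_ne_zero (by norm_num) hm'
  have n4 : (4 * (m : ℚ_[2])) ≠ 0 := mul_ne_zero (by norm_num) hm'
  have hnm : -(m : ℚ_[2]) ≠ 0 := neg_ne_zero.2 hm'
  refine tam_eq_four hm0 hm1 (fun x y h => sing_two h2 h) ?_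
  intro x hu hv hw hs hvx
  rw [vm, v3, v4]
  have hsum : Even (x.valuation + (x - m).valuation + (x + 3 * m).valuation) := by
    have := even_val (mul_ne_zero (mul_ne_zero hu hv) hw) hs
    rwa [Padic.valuation_mul (mul_ne_zero hu hv) hw, Padic.valuation_mul hu hv] at this
  rcases lt_or_ge 1 x.valuation with c | c
  · left; omega
  have c1 : x.valuation = 1 := by omega
  have e1 : 2 ≤ (x - m).valuation := by
    have := add_same hu hnm (by rwa [← sub_eq_add_neg]) (by rw [val_neg, vm, c1])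
    rw [← sub_eq_add_neg] at this
    omega
  have E : (x - m) + 4 * m = x + 3 * (m : ℚ_[2]) := by ring
  rcases lt_trichotomy (x - (m : ℚ_[2])).valuation 3 with c2 | c2 | c2
  · exfalso
    have e2 := val_add_eq hv n4 (by rw [E]; exact hw) (by rw [v4]; exact c2)
    rw [E] at e2
    obtain ⟨r, hr⟩ := hsum
    omega
  · right; right
    have := add_same hv n4 (by rw [E]; exact hw) (by rw [v4, c2])
    rw [E] at this
    omega
  · right; left
    omega

end two

end Pool.Agent.N373.P24x
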